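import Pool.Agent.V7H97.OF.Fin2

/-!
# The exponent `1 / 5`: both halves and the one-point quantities
-/

set_option autoImplicit false

open MeasureTheory ProbabilityTheory Filter Set
open scoped Pointwise Topology

namespace Pool.Agent.V7H97.OF

open Pool.Agent.N662.FP Pool.Agent.V7H97.FO Pool.Agent.V7H97.LF

variable {Ω : Type} [MeasureSpace Ω] [IsProbabilityMeasure (volume : Measure Ω)]
variable {X : Sym2 (ℤ × ℤ) → Ω → ℝ}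

theorem both (hX : Iid X) {μ : Seminorm ℝ (ℝ × ℝ)}
    (hG : Good (fun ω v => D (env X ω) 0 v) μ)
    (hlim : ∀ v : ℤ × ℤ, ∀ᵐ ω ∂(volume : Measure Ω),
      Tendsto (fun n : ℕ => D (env X ω) 0 ((n : ℤ) • v) / (n : ℝ)) atTop (𝓝 (μ (em v)))) :
    (∀ κ e : ℝ, 4 / 5 < κ → e < Real.exp (-1) → ∃ᶠ t : ℝ in atTop,
      e < (volume : Measure Ω).real (Bad (fun ω v => D (env X ω) 0 v) μ κ t)) ∧
    (∀ κ : ℝ, 4 / 5 < κ → ∃ᶠ t : ℝ in atTop,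
      t ^ (-481 : ℝ) < (volume : Measure Ω).real (Out (fun ω v => D (env X ω) 0 v) μ κ t)) ∧
    ∀ χ A : ℝ, χ < 1 / 5 →
      (∃ v : ℤ × ℤ, A * (1 + |(v.1 : ℝ)| + |(v.2 : ℝ)|) ^ (2 * χ) <
        variance (fun ω => D (env X ω) 0 v) (volume : Measure Ω)) ∧
      (∀ a : ℤ × ℤ → ℝ, ∃ v : ℤ × ℤ, A * (1 + |(v.1 : ℝ)| + |(v.2 : ℝ)|) ^ χ <
        ∫ ω, |D (env X ω) 0 v - a v| ∂(volume : Measure Ω)) ∧
      (∃ v : ℤ × ℤ, μ (em v) + A * (1 + |(v.1 : ℝ)| + |(v.2 : ℝ)|) ^ χ <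
        ∫ ω, D (env X ω) 0 v ∂(volume : Measure Ω)) ∧
      (∃ v : ℤ × ℤ, ∫ ω, D (env X ω) 0 (v + v) ∂(volume : Measure Ω) +
        A * (1 + |(v.1 : ℝ)| + |(v.2 : ℝ)|) ^ χ <
          2 * ∫ ω, D (env X ω) 0 v ∂(volume : Measure Ω)) ∧
      (∀ e : ℝ, e < Real.exp (-1) → ∃ v : ℤ × ℤ, e < (volume : Measure Ω).real
        {ω | μ (em v) + A * (1 + |(v.1 : ℝ)| + |(v.2 : ℝ)|) ^ χ ≤ D (env X ω) 0 v}) ∧
      (∀ N : ℝ, ∃ v : ℤ × ℤ, N ≤ 1 + |(v.1 : ℝ)| + |(v.2 : ℝ)| ∧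
        (1 + |(v.1 : ℝ)| + |(v.2 : ℝ)|) ^ (-481 : ℝ) < (volume : Measure Ω).real
        {ω | D (env X ω) 0 v + A * (1 + |(v.1 : ℝ)| + |(v.2 : ℝ)|) ^ χ ≤ μ (em v)}) := by
  have hq : -(((480 : ℕ) : ℝ) + 1) = (-481 : ℝ) := by norm_num
  have hO := not_OH hX hG.norm hlim
  obtain ⟨f1, f2⟩ := fifth hX hG hlim
  refine ⟨f1, fun κ hκ => ?_, fun χ A hχ => ?_⟩
  · have := outer_fails 480 hO κ hκ
    rw [hq] at this
    exact this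
  · obtain ⟨g1, g2, g3, g4, g5⟩ := f2 χ A hχ
    refine ⟨g1, g2, g3, g4, g5, fun N => ?_⟩
    have := point_fails hG.norm 480 hO χ A N hχ
    rw [hq] at this
    exact this

end Pool.Agent.V7H97.OF
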