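import Pool.Agent.V7H97.OF.Scale2
import Pool.Agent.V7H97.FO.Rate

/-!
# Fast passage times have at least polynomially small probability
-/

set_option autoImplicit false

open MeasureTheory ProbabilityTheory Filter Set
open scoped Topology

namespace Pool.Agent.V7H97.OF

open Pool.Agent.N662.FP Pool.Agent.V7H97.FO

/-! ### inequalities -/

/-- the scale is large -/
structure EV (a b : ℕ) (C N m : ℝ) : Prop where
  mC : 12 * C + 12 ≤ m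
  mN : N ≤ m / 2
  k1 : 2 * m ^ (1 / 4 : ℝ) ≤ m ^ (1 : ℝ)
  x1 : 4 * m ^ (9 * a) * Real.exp (-(1 / 2 * m ^ (1 / 4 : ℝ))) ≤ 1
  x2 : 2 * (103 ^ 4 * 2 ^ b) * m ^ (36 + 9 * a) ≤ m ^ b
  x3 : 2 * 103 ^ 4 * m ^ 44 ≤ m ^ a
  x6 : (6 * C + 4) / m + m ^ (-(27 / 10) : ℝ) ≤ m ^ (-(9 / 10) : ℝ)

theorem evn (K : ℝ) (p q : ℕ) (h : p < q) : ∀ᶠ m : ℝ in atTop, K * m ^ p ≤ m ^ q := by
  have h1 := ev K (p : ℝ) (q : ℝ) (by exact_mod_cast h)
  filter_upwards [h1] with m h2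
  rwa [Real.rpow_natCast, Real.rpow_natCast] at h2

theorem ev_EV (a b : ℕ) (ha : 44 < a) (hb : 36 + 9 * a < b) (C N : ℝ) :
    ∀ᶠ m : ℝ in atTop, EV a b C N m := by
  have h1 := ev 2 (1 / 4) 1 (by norm_num)
  have h2 := ev2 4 (9 * a) (1 / 2) (1 / 4) (1 / 8) (by norm_num) (by norm_num) (by norm_num)
  have h3 := evn (2 * (103 ^ 4 * 2 ^ b)) (36 + 9 * a) b hb
  have h4 := evn (2 * 103 ^ 4) 44 a ha
  have h5 := ev (2 * (6 * C + 4)) (-1) (-(9 / 10)) (by norm_num)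
  have h6 := ev 2 (-(27 / 10)) (-(9 / 10)) (by norm_num)
  filter_upwards [h1, h2, h3, h4, h5, h6, eventually_ge_atTop (12 * C + 12),
    eventually_ge_atTop (2 * N), eventually_gt_atTop 0] with m k1 k2 k3 k4 k5 k6 k7 k8 k9
  refine ⟨k7, by linarith, k1, ?_, k3, k4, ?_⟩
  · refine k2.trans ?_
    have : Real.exp (-(m ^ (1 / 8 : ℝ))) ≤ 1 := by
      rw [Real.exp_le_one_iff]
      have := Real.rpow_nonneg k9.le (1 / 8 : ℝ)
      linarith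
    linarith
  · rw [Real.rpow_neg_one] at k5
    have e : 2 * (6 * C + 4) * m⁻¹ = 2 * ((6 * C + 4) / m) := by ring
    rw [e] at k5
    linarith

/-- the balance of the passage times -/
theorem bal (a b : ℕ) (C m n χ ρ N : ℝ) (hC : 0 < C) (hE : EV a b C N m) (hn1 : m ^ 3 ≤ n)
    (hρ0 : 0 ≤ ρ) (hρ1 : ρ ≤ 1) (hχ1 : χ ≤ 1) (L k : ℕ)
    (hL1 : L * (m + 2 * C + 1) ≤ n - 4 * C) (hL2 : n - 4 * C < L * (m + 2 * C + 1) + (m + 2 * C + 1))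
    (hk : (k : ℝ) ≤ m ^ (1 / 4 : ℝ)) :
    n + (ρ - (6 * C + 4) / m) * n ≤ L * (m - 2 * C + ρ * m) - k * (m ^ χ + ρ * m) := by
  have hm := hE.mC
  have hm0 : 0 < m := by linarith
  have hm1 : 1 ≤ m := by linarith
  obtain ⟨x, hx⟩ : ∃ x, x = n / m := ⟨_, rfl⟩
  have hxn : n = x * m := by rw [hx]; field_simp
  have hxm : m ^ 2 ≤ x := by
    rw [hx, le_div_iff₀ hm0]
    calc m ^ 2 * m = m ^ 3 := by ring
      _ ≤ n := hn1
  have hx0 : 0 < x := lt_of_lt_of_le (by positivity) hxm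
  have hLx : (L : ℝ) ≤ x := by
    have h1 : (L : ℝ) * m ≤ x * m := by
      rw [← hxn]
      have : (L : ℝ) * m ≤ L * (m + 2 * C + 1) :=
        mul_le_mul_of_nonneg_left (by linarith) (Nat.cast_nonneg L)
      linarith
    exact le_of_mul_le_mul_right h1 hm0
  have hL0 : (0 : ℝ) ≤ L := Nat.cast_nonneg L
  have hk0 : (0 : ℝ) ≤ k := Nat.cast_nonneg k
  have h2 : m ^ χ ≤ m := by
    conv_rhs => rw [← Real.rpow_one m]
    exact Real.rpow_le_rpow_of_exponent_le hm1 hχ1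
  have h3 : m ^ χ + ρ * m ≤ 2 * m := by
    have : ρ * m ≤ 1 * m := mul_le_mul_of_nonneg_right hρ1 hm0.le
    linarith
  have h4 : k * (m ^ χ + ρ * m) ≤ x := by
    have h5 := hE.k1
    rw [Real.rpow_one] at h5
    calc k * (m ^ χ + ρ * m) ≤ m ^ (1 / 4 : ℝ) * (2 * m) := by gcongr
      _ = (2 * m ^ (1 / 4 : ℝ)) * m := by ring
      _ ≤ m * m := mul_le_mul_of_nonneg_right h5 hm0.le
      _ = m ^ 2 := by ring
      _ ≤ x := hxm
  have h6 : n * ((6 * C + 4) / m) = (6 * C + 4) * x := by rw [hx]; ring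
  have h7 : (L : ℝ) * C ≤ x * C := mul_le_mul_of_nonneg_right hLx hC.le
  have h8 : (L : ℝ) * m ≥ n - m - 6 * C - 1 - 2 * (x * C) - x := by
    have : (L : ℝ) * (m + 2 * C + 1) = L * m + 2 * (L * C) + L := by ring
    linarith
  have h9 : ρ * ((L : ℝ) * m) ≥ ρ * n - (m + 6 * C + 1 + 2 * (x * C) + x) := by
    have g1 : ρ * (n - (m + 6 * C + 1 + 2 * (x * C) + x)) ≤ ρ * ((L : ℝ) * m) :=
      mul_le_mul_of_nonneg_left (by linarith) hρ0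
    have g2 : 0 ≤ m + 6 * C + 1 + 2 * (x * C) + x := by positivity
    have g3 : ρ * (m + 6 * C + 1 + 2 * (x * C) + x) ≤ 1 * (m + 6 * C + 1 + 2 * (x * C) + x) :=
      mul_le_mul_of_nonneg_right hρ1 g2
    have g4 : ρ * (n - (m + 6 * C + 1 + 2 * (x * C) + x)) =
      ρ * n - ρ * (m + 6 * C + 1 + 2 * (x * C) + x) := by ring
    linarith
  have h10 : 2 * m + 12 * C + 2 ≤ x := by
    have : m * 12 ≤ m ^ 2 := by nlinarith
    linarith
  have e1 : (L : ℝ) * (m - 2 * C + ρ * m) = L * (m + 2 * C + 1) - 4 * (L * C) - L +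
      ρ * (L * m) := by ring
  have e2 : n + (ρ - (6 * C + 4) / m) * n = n + ρ * n - n * ((6 * C + 4) / m) := by ring
  rw [e1, e2, h6]
  have e3 : (6 * C + 4) * x = 6 * (x * C) + 4 * x := by ring
  rw [e3]
  linarith

/-- the probabilities -/
theorem prb (a b : ℕ) (C N m n : ℝ) (hC : 0 < C) (hE : EV a b C N m) (hn1 : m ^ 3 ≤ n)
    (hn2 : n ≤ m ^ 9)
    (L R k : ℕ) (hL : L * (m + 2 * C + 1) ≤ n - 4 * C) (hR1 : 50 * n ≤ R) (hR2 : R ≤ 50 * n + 1)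
    (hk : m ^ (1 / 4 : ℝ) < k + 1) :
    L * ((2 * (R : ℝ) + 1) ^ 4 * (m ^ a)⁻¹) ≤ 1 / 2 ∧
    (1 / 2 : ℝ) ^ R + (2 * (R : ℝ) + 1) ^ 4 * ((m - 2 * C) ^ b)⁻¹ + (1 / 2) ^ (k + 1) ≤
      (n ^ a)⁻¹ := by
  have hm := hE.mC
  have hm0 : 0 < m := by linarith
  have hm1 : 1 ≤ m := by linarith
  have hn0 : 1 ≤ n := le_trans (one_le_pow₀ hm1) hn1
  have hR3 : 2 * (R : ℝ) + 1 ≤ 103 * n := by linarith
  have hR5 : 2 * (R : ℝ) + 1 ≤ 103 * m ^ 9 := by linarith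
  have hR4 : (2 * (R : ℝ) + 1) ^ 4 ≤ 103 ^ 4 * m ^ 36 := by
    calc (2 * (R : ℝ) + 1) ^ 4 ≤ (103 * m ^ 9) ^ 4 := pow_le_pow_left₀ (by positivity) hR5 4
      _ = 103 ^ 4 * m ^ 36 := by rw [mul_pow, ← pow_mul]
  have x2 := hE.x2
  have x3 := hE.x3
  have x1 := hE.x1
  have hLm : (L : ℝ) ≤ m ^ 8 := by
    have h1 : (L : ℝ) * m ≤ m ^ 8 * m := by
      have h2 : (L : ℝ) * m ≤ L * (m + 2 * C + 1) :=
        mul_le_mul_of_nonneg_left (by linarith) (Nat.cast_nonneg L)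
      have h3 : m ^ 9 = m ^ 8 * m := pow_succ m 8
      rw [← h3]
      linarith
    exact le_of_mul_le_mul_right h1 hm0
  have hma : 0 < m ^ a := pow_pos hm0 a
  have hmb : 0 < m ^ b := pow_pos hm0 b
  have hm9 : 0 < m ^ (9 * a) := pow_pos hm0 _
  constructor
  · have h1 : (L : ℝ) * ((2 * (R : ℝ) + 1) ^ 4 * (m ^ a)⁻¹) ≤
        m ^ 8 * ((103 ^ 4 * m ^ 36) * (m ^ a)⁻¹) := by
      refine mul_le_mul hLm ?_ (by positivity) (by positivity)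
      exact mul_le_mul_of_nonneg_right hR4 (inv_pos.2 hma).le
    refine h1.trans ?_
    have h2 : m ^ 8 * ((103 ^ 4 * m ^ 36) * (m ^ a)⁻¹) = (103 ^ 4 * m ^ 44) * (m ^ a)⁻¹ := by
      have : m ^ 44 = m ^ 8 * m ^ 36 := by rw [← pow_add]
      rw [this]; ring
    rw [h2, mul_inv_le_iff₀ hma]
    linarith
  · have y1 := half_pow R (m ^ (1 / 4 : ℝ)) (by
      have h1 : m ^ (1 / 4 : ℝ) ≤ m := by
        conv_rhs => rw [← Real.rpow_one m]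
        exact Real.rpow_le_rpow_of_exponent_le hm1 (by norm_num)
      have h2 : m ≤ m ^ 3 := le_self_pow₀ hm1 (by norm_num)
      linarith)
    have y2 := half_pow (k + 1) (m ^ (1 / 4 : ℝ)) (by push_cast; exact hk.le)
    have y3 : Real.exp (-(1 / 2 * m ^ (1 / 4 : ℝ))) ≤ (m ^ (9 * a))⁻¹ / 4 := by
      rw [le_div_iff₀ (by norm_num), inv_eq_one_div, le_div_iff₀ hm9]
      linarith
    have y4 : (2 * (R : ℝ) + 1) ^ 4 * ((m - 2 * C) ^ b)⁻¹ ≤ (m ^ (9 * a))⁻¹ / 2 := by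
      have g1 : (m / 2) ^ b ≤ (m - 2 * C) ^ b := pow_le_pow_left₀ (by positivity) (by linarith) _
      have g2 : ((m - 2 * C) ^ b)⁻¹ ≤ ((m / 2) ^ b)⁻¹ := inv_anti₀ (by positivity) g1
      have g3 : 0 ≤ ((m - 2 * C) ^ b)⁻¹ := by
        have : 0 < m - 2 * C := by linarith
        positivity
      have g4 : (2 * (R : ℝ) + 1) ^ 4 * ((m - 2 * C) ^ b)⁻¹ ≤
            (103 ^ 4 * m ^ 36) * ((m / 2) ^ b)⁻¹ := mul_le_mul hR4 g2 g3 (by positivity)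
      refine g4.trans ?_
      have g5 : ((m / 2) ^ b)⁻¹ = 2 ^ b * (m ^ b)⁻¹ := by rw [div_pow, inv_div]; ring
      rw [g5]
      have g6 : m ^ (36 + 9 * a) = m ^ 36 * m ^ (9 * a) := pow_add _ _ _
      rw [g6] at x2
      have g7 : 103 ^ 4 * m ^ 36 * (2 ^ b * (m ^ b)⁻¹) =
          (103 ^ 4 * 2 ^ b * m ^ 36) * (m ^ b)⁻¹ := by ring
      rw [g7, mul_inv_le_iff₀ hmb, div_mul_eq_mul_div, le_div_iff₀ (by norm_num),
        inv_mul_eq_div, le_div_iff₀ hm9]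
      linarith
    have y5 : (m ^ (9 * a))⁻¹ ≤ (n ^ a)⁻¹ := by
      apply inv_anti₀ (by positivity)
      rw [pow_mul]
      exact pow_le_pow_left₀ (by linarith) hn2 a
    linarith

section
variable {Ω : Type} [MeasureSpace Ω] [IsProbabilityMeasure (volume : Measure Ω)]
variable {X : Sym2 (ℤ × ℤ) → Ω → ℝ}

/-- the lower estimate at one point, with a polynomial rate -/
def OH (X : Sym2 (ℤ × ℤ) → Ω → ℝ) (μ : Seminorm ℝ (ℝ × ℝ)) (χ : ℝ) (q : ℕ) : Prop :=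
  ∃ N : ℝ, ∀ v : ℤ × ℤ, N ≤ μ (em v) →
    (volume : Measure Ω).real {ω | D (env X ω) 0 v < μ (em v) - μ (em v) ^ χ} ≤ (μ (em v) ^ q)⁻¹

theorem OH_mono {μ : Seminorm ℝ (ℝ × ℝ)} {χ : ℝ} {q Q : ℕ} (h : q ≤ Q) (hO : OH X μ χ Q) :
    OH X μ χ q := by
  obtain ⟨N, hN⟩ := hO
  refine ⟨max N 1, fun v hv => (hN v ((le_max_left _ _).trans hv)).trans ?_⟩
  have h1 : 1 ≤ μ (em v) := (le_max_right _ _).trans hv
  exact inv_anti₀ (by positivity) (pow_le_pow_right₀ h1 h)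

/-- passage times at the scale `n` are typically large -/
def HH (X : Sym2 (ℤ × ℤ) → Ω → ℝ) (φ : (ℝ × ℝ) →ₗ[ℝ] ℝ) (a : ℕ) (C ρ n : ℝ) : Prop :=
  ∀ w : ℤ × ℤ, n - 2 * C ≤ φ (em w) → φ (em w) ≤ n →
    (volume : Measure Ω).real {ω | D (env X ω) 0 w < φ (em w) + ρ * n} ≤ (n ^ a)⁻¹

theorem HH_mono {φ : (ℝ × ℝ) →ₗ[ℝ] ℝ} {a : ℕ} {C ρ ρ' n : ℝ} (h : ρ' ≤ ρ) (hn : 0 ≤ n)
    (hH : HH X φ a C ρ n) : HH X φ a C ρ' n := by
  intro w h1 h2
  refine le_trans (measureReal_mono (fun ω hω => ?_) (measure_ne_top _ _)) (hH w h1 h2)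
  have h3 : D (env X ω) 0 w < φ (em w) + ρ' * n := hω
  show D (env X ω) 0 w < φ (em w) + ρ * n
  have h4 : ρ' * n ≤ ρ * n := mul_le_mul_of_nonneg_right h hn
  linarith

theorem defic {μ : Seminorm ℝ (ℝ × ℝ)} {φ : (ℝ × ℝ) →ₗ[ℝ] ℝ}
    (hφ : ∀ x, |φ x| ≤ μ x) (χ N : ℝ) (q : ℕ) (hχ0 : 0 ≤ χ) (hχ1 : χ ≤ 1)
    (hOH : ∀ v : ℤ × ℤ, N ≤ μ (em v) → (volume : Measure Ω).real
      {ω | D (env X ω) 0 v < μ (em v) - μ (em v) ^ χ} ≤ (μ (em v) ^ q)⁻¹)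
    (m C : ℝ) (hC : 0 < C) (hN : N ≤ m - 2 * C) (h1 : 1 ≤ m - 2 * C) (w : ℤ × ℤ)
    (hw1 : m - 2 * C ≤ φ (em w)) (_hw2 : φ (em w) ≤ m) :
    (volume : Measure Ω).real {ω | D (env X ω) 0 w < φ (em w) + -(m ^ χ)} ≤
      ((m - 2 * C) ^ q)⁻¹ := by
  have hm : 1 ≤ m := by linarith
  have hle := (le_abs_self _).trans (hφ (em w))
  have h4 : m - 2 * C ≤ μ (em w) := hw1.trans hle
  refine le_trans (measureReal_mono (fun ω hω => ?_) (measure_ne_top _ _))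
    ((hOH w (hN.trans h4)).trans ?_)
  · have h5 : D (env X ω) 0 w < φ (em w) + -(m ^ χ) := hω
    show D (env X ω) 0 w < μ (em w) - μ (em w) ^ χ
    have h6 : φ (em w) - m ^ χ ≤ μ (em w) - μ (em w) ^ χ := by
      rcases le_total (μ (em w)) m with h7 | h7
      · have h8 : μ (em w) ^ χ ≤ m ^ χ := Real.rpow_le_rpow (apply_nonneg μ _) h7 hχ0
        linarith
      · have := sub_pow_mono _ m χ hm h7 hχ1
        linarith
    linarith
  · exact inv_anti₀ (by positivity) (pow_le_pow_left₀ (by linarith) h4 q)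

/-- one step of the iteration -/
theorem stp (hX : Iid X) {μ : Seminorm ℝ (ℝ × ℝ)} {C : ℝ} (hC : Ct μ C)
    {φ : (ℝ × ℝ) →ₗ[ℝ] ℝ} (u : ℝ × ℝ) (hφu : φ u = 1) (hφ : ∀ x, |φ x| ≤ μ x)
    (a b : ℕ) (χ N : ℝ) (hχ0 : 0 ≤ χ) (hχ1 : χ ≤ 1)
    (hOH : ∀ v : ℤ × ℤ, N ≤ μ (em v) → (volume : Measure Ω).real
      {ω | D (env X ω) 0 v < μ (em v) - μ (em v) ^ χ} ≤ (μ (em v) ^ b)⁻¹)
    (m n ρ : ℝ) (hE : EV a b C N m) (hn1 : m ^ 3 ≤ n) (hn2 : n ≤ m ^ 9) (hρ0 : 0 ≤ ρ) (hρ1 : ρ ≤ 1)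
    (hH : HH X φ a C ρ m) : HH X φ a C (ρ - (6 * C + 4) / m) n := by
  intro w hw1 hw2
  have hC0 := hC.pos
  have hm := hE.mC
  have hm0 : 0 < m := by linarith
  have hm1 : 1 ≤ m := by linarith
  have hn0 : 1 ≤ n := le_trans (one_le_pow₀ hm1) hn1
  have hmn : m ≤ n := (le_self_pow₀ hm1 (by norm_num)).trans hn1
  have hW : 0 < m + 2 * C + 1 := by linarith
  obtain ⟨L, hL⟩ : ∃ L : ℕ, L = ⌊(n - 4 * C) / (m + 2 * C + 1)⌋₊ := ⟨_, rfl⟩
  have hL1 : L * (m + 2 * C + 1) ≤ n - 4 * C := by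
    rw [← le_div_iff₀ hW, hL]
    exact Nat.floor_le (div_nonneg (by linarith) hW.le)
  have hL2 : n - 4 * C < L * (m + 2 * C + 1) + (m + 2 * C + 1) := by
    have h1 := Nat.lt_floor_add_one ((n - 4 * C) / (m + 2 * C + 1))
    rw [← hL, div_lt_iff₀ hW] at h1
    linarith
  obtain ⟨k, hk⟩ : ∃ k : ℕ, k = ⌊m ^ (1 / 4 : ℝ)⌋₊ := ⟨_, rfl⟩
  have hk1 : (k : ℝ) ≤ m ^ (1 / 4 : ℝ) := by
    rw [hk]; exact Nat.floor_le (Real.rpow_nonneg hm0.le _)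
  have hk2 : m ^ (1 / 4 : ℝ) < k + 1 := by
    rw [hk]; exact Nat.lt_floor_add_one _
  obtain ⟨R, hR⟩ : ∃ R : ℕ, R = ⌈50 * n⌉₊ := ⟨_, rfl⟩
  have hR1 : 50 * n ≤ R := by rw [hR]; exact Nat.le_ceil _
  have hR2 : (R : ℝ) ≤ 50 * n + 1 := by
    have := Nat.ceil_lt_add_one (show 0 ≤ 50 * n by positivity)
    rw [← hR] at this
    exact this.le
  have hb := bal a b C m n χ ρ N hC0 hE hn1 hρ0 hρ1 hχ1 L k hL1 hL2 hk1
  obtain ⟨hp1, hp2⟩ := prb a b C N m n hC0 hE hn1 hn2 L R k hL1 hR1 hR2 hk2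
  have hmχ : 0 ≤ m ^ χ := Real.rpow_nonneg hm0.le _
  have hd := pairs hX φ m C (-(m ^ χ)) (((m - 2 * C) ^ b)⁻¹) (by
    have : 0 < m - 2 * C := by linarith
    positivity) R
    (fun w h1 h2 => defic hφ χ N b hχ0 hχ1 hOH m C hC0 (by
      have := hE.mN; linarith) (by linarith) w h1 h2)
  have hr' : (ρ - (6 * C + 4) / m) * n ≤ n := by
    have h1 : 0 ≤ (6 * C + 4) / m := by positivity
    have h2 : (ρ - (6 * C + 4) / m) * n ≤ 1 * n := mul_le_mul_of_nonneg_right (by linarith)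
      (by linarith)
    linarith
  exact (one_scale hX hC u hφu hφ m n L R k (m ^ χ) (ρ * m) ((ρ - (6 * C + 4) / m) * n)
    (by linarith) (by linarith) hL1 hR1 hr' (by positivity) hmχ hb ((m ^ a)⁻¹) _ (by positivity)
    hH hp1 hd w hw1 hw2).trans hp2

/-- all larger scales -/
theorem alls (hX : Iid X) {μ : Seminorm ℝ (ℝ × ℝ)} {C : ℝ} (hC : Ct μ C)
    {φ : (ℝ × ℝ) →ₗ[ℝ] ℝ} (u : ℝ × ℝ) (hφu : φ u = 1) (hφ : ∀ x, |φ x| ≤ μ x)
    (a b : ℕ) (χ N : ℝ) (hχ0 : 0 ≤ χ) (hχ1 : χ ≤ 1)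
    (hOH : ∀ v : ℤ × ℤ, N ≤ μ (em v) → (volume : Measure Ω).real
      {ω | D (env X ω) 0 v < μ (em v) - μ (em v) ^ χ} ≤ (μ (em v) ^ b)⁻¹)
    (m0 ρs : ℝ) (hE : ∀ m, m0 ≤ m → EV a b C N m) (hρ : m0 ^ (-(9 / 10) : ℝ) ≤ ρs) (hρ1 : 2 * ρs ≤ 1)
    (hH : HH X φ a C (2 * ρs) m0) (k : ℕ) : ∀ n : ℝ, m0 ^ 3 ≤ n → n ≤ m0 ^ (9 * 3 ^ k) →
      HH X φ a C (ρs + n ^ (-(9 / 10) : ℝ)) n := by
  have hm := (hE m0 le_rfl).mC
  have hC0 := hC.pos
  have hm0 : 0 < m0 := by linarith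
  have hm1 : 1 ≤ m0 := by linarith
  have hρs0 : 0 ≤ ρs := (Real.rpow_nonneg hm0.le _).trans hρ
  have base : ∀ n : ℝ, m0 ^ 3 ≤ n → n ≤ m0 ^ 9 → HH X φ a C (ρs + n ^ (-(9 / 10) : ℝ)) n := by
    intro n h1 h2
    have hn0 : 0 < n := lt_of_lt_of_le (by positivity) h1
    refine HH_mono ?_ hn0.le (stp hX hC u hφu hφ a b χ N hχ0 hχ1 hOH m0 n (2 * ρs) (hE m0 le_rfl) h1 h2
      (by linarith) hρ1 hH)
    have h3 := (hE m0 le_rfl).x6
    have h4 : n ^ (-(9 / 10) : ℝ) ≤ m0 ^ (-(27 / 10) : ℝ) := by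
      calc n ^ (-(9 / 10) : ℝ) ≤ (m0 ^ 3) ^ (-(9 / 10) : ℝ) :=
            Real.rpow_le_rpow_of_nonpos (by positivity) h1 (by norm_num)
        _ = m0 ^ (-(27 / 10) : ℝ) := by
            rw [← Real.rpow_natCast, ← Real.rpow_mul hm0.le]
            norm_num
    linarith
  induction k with
  | zero =>
    intro n h1 h2
    exact base n h1 (by simpa using h2)
  | succ k ih =>
    intro n h1 h2
    rcases le_total n (m0 ^ 9) with h3 | h3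
    · exact base n h1 h3
    · have hn0 : 0 < n := lt_of_lt_of_le (by positivity) h1
      obtain ⟨m, hmd⟩ : ∃ m, m = n ^ (1 / 3 : ℝ) := ⟨_, rfl⟩
      have hmp : 0 < m := by rw [hmd]; positivity
      have hm3 : m ^ 3 = n := by
        rw [hmd, ← Real.rpow_natCast, ← Real.rpow_mul hn0.le]
        norm_num
      have a1 : m0 ^ 3 ≤ m := by
        rw [← pow_le_pow_iff_left₀ (by positivity) hmp.le (show 3 ≠ 0 by norm_num), hm3]
        calc (m0 ^ 3) ^ 3 = m0 ^ 9 := by ring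
          _ ≤ n := h3
      have a2 : m ≤ m0 ^ (9 * 3 ^ k) := by
        rw [← pow_le_pow_iff_left₀ hmp.le (by positivity) (show 3 ≠ 0 by norm_num), hm3, ← pow_mul]
        refine h2.trans (le_of_eq ?_)
        congr 1
        ring
      have a3 : m0 ≤ m := (le_self_pow₀ hm1 (by norm_num)).trans a1
      have hm1' : 1 ≤ m := hm1.trans a3
      have a4 := ih m a1 a2
      have b1 : m ^ (-(9 / 10) : ℝ) ≤ m0 ^ (-(9 / 10) : ℝ) :=
        Real.rpow_le_rpow_of_nonpos hm0 a3 (by norm_num)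
      have b2 := Real.rpow_nonneg hmp.le (-(9 / 10) : ℝ)
      refine HH_mono ?_ hn0.le (stp hX hC u hφu hφ a b χ N hχ0 hχ1 hOH m n _ (hE m a3) hm3.le ?_
        (by linarith) (by linarith) a4)
      · have h3 := (hE m a3).x6
        have h4 : n ^ (-(9 / 10) : ℝ) = m ^ (-(27 / 10) : ℝ) := by
          rw [← hm3, ← Real.rpow_natCast, ← Real.rpow_mul hmp.le]
          norm_num
        linarith
      · rw [← hm3]
        exact pow_le_pow_right₀ hm1' (by norm_num)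

/-- fast passage times have at least polynomially small probability -/
theorem fast_pt (hX : Iid X) {μ : Seminorm ℝ (ℝ × ℝ)} {C : ℝ} (hC : Ct μ C)
    {φ : (ℝ × ℝ) →ₗ[ℝ] ℝ} (u : ℝ × ℝ) (hφu : φ u = 1) (hμu : μ u = 1) (hφ : ∀ x, |φ x| ≤ μ x)
    (q : ℕ) (hq : 44 < q)
    (χ : ℝ) (hχ0 : 1 / 10 ≤ χ) (hχ1 : χ < 1) (hOH : OH X μ χ (36 + 9 * q + 1))
    (hlim : ∀ v : ℤ × ℤ, ∀ᵐ ω ∂(volume : Measure Ω),
      Tendsto (fun n : ℕ => D (env X ω) 0 ((n : ℤ) • v) / (n : ℝ)) atTop (𝓝 (μ (em v)))) :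
    ∀ᶠ m : ℝ in atTop, ∃ w : ℤ × ℤ, m - 2 * C ≤ φ (em w) ∧ φ (em w) ≤ m ∧
      (m ^ q)⁻¹ < (volume : Measure Ω).real {ω | D (env X ω) 0 w < φ (em w) + 2 * m ^ χ} := by
  obtain ⟨b, hb⟩ : ∃ b : ℕ, b = 36 + 9 * q + 1 := ⟨_, rfl⟩
  rw [← hb] at hOH
  obtain ⟨N, hN⟩ := hOH
  have hC0 := hC.pos
  obtain ⟨M, hM⟩ := eventually_atTop.1 (ev_EV q b hq (by omega) C N)
  filter_upwards [eventually_ge_atTop M, eventually_ge_atTop 1, ev 2 (χ - 1) 0 (by linarith)]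
    with m0 h1 h1' h2
  by_contra hcon
  push Not at hcon
  have hm0 : 0 < m0 := by linarith
  obtain ⟨ρs, hρs⟩ : ∃ ρs, ρs = m0 ^ (χ - 1) := ⟨_, rfl⟩
  have hρ0 : 0 < ρs := by rw [hρs]; positivity
  rw [Real.rpow_zero, ← hρs] at h2
  have hρ : m0 ^ (-(9 / 10) : ℝ) ≤ ρs := by
    rw [hρs]
    exact Real.rpow_le_rpow_of_exponent_le h1' (by linarith)
  have e1 : 2 * ρs * m0 = 2 * m0 ^ χ := by
    rw [hρs, mul_assoc, ← Real.rpow_add_one hm0.ne']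
    congr 2; ring
  have hH : HH X φ q C (2 * ρs) m0 := by
    intro w hw1 hw2
    rw [e1]
    exact hcon w hw1 hw2
  have hall := alls hX hC u hφu hφ q b χ N (by linarith) hχ1.le hN m0 ρs (fun m hm => hM m (h1.trans hm))
    hρ h2 hH
  -- the direction
  obtain ⟨s, hs⟩ : ∃ s, s = (2 * C + C * ρs + 1) / ρs := ⟨_, rfl⟩
  have hs1 : s * ρs = 2 * C + C * ρs + 1 := by rw [hs]; field_simp
  obtain ⟨v0, hv0⟩ := hC.round (s • u)
  have hs0 : 0 < s := by rw [hs]; positivity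
  have hsC : C < s := by
    have : C * ρs < s * ρs := by rw [hs1]; linarith
    exact lt_of_mul_lt_mul_right this hρ0.le
  have c1 : μ (em v0) ≤ s + C := by
    have h3 : em v0 = (em v0 - s • u) + s • u := by abel
    have h4 : μ (em v0) ≤ μ (em v0 - s • u) + μ (s • u) := by
      conv_lhs => rw [h3]
      exact map_add_le_add μ _ _
    rw [map_smul_eq_mul, hμu, mul_one, Real.norm_eq_abs, abs_of_pos hs0] at h4
    linarith
  have c2 : s - C ≤ φ (em v0) := by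
    have h4 := (abs_le.1 (hφ (em v0 - s • u))).1
    have h5 : φ (em v0 - s • u) = φ (em v0) - s := by
      rw [map_sub, map_smul, hφu, smul_eq_mul, mul_one]
    linarith
  obtain ⟨a, ha⟩ : ∃ a, a = φ (em v0) := ⟨_, rfl⟩
  have ha0 : 0 < a := by rw [ha]; linarith
  have c3 : μ (em v0) < a * (1 + ρs) := by
    have h3 : (s - C) * (1 + ρs) ≤ a * (1 + ρs) := by
      rw [← ha] at c2
      exact mul_le_mul_of_nonneg_right c2 (by linarith)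
    have h4 : (s - C) * (1 + ρs) = s - C + s * ρs - C * ρs := by ring
    linarith
  obtain ⟨ε, hε⟩ : ∃ ε, ε = a * (1 + ρs) - μ (em v0) := ⟨_, rfl⟩
  have hε0 : 0 < ε := by rw [hε]; linarith
  have hmeas : ∀ n : ℕ, AEStronglyMeasurable
      (fun ω => D (env X ω) 0 ((n : ℤ) • v0) / (n : ℝ)) (volume : Measure Ω) :=
    fun n => ((cINT Ω X hX 0 ((n : ℤ) • v0)).div_const _).aestronglyMeasurable
  have d1 := tendstoInMeasure_of_tendsto_ae hmeas (hlim v0)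
  rw [tendstoInMeasure_iff_measureReal_dist] at d1
  have d2 := (d1 ε hε0).eventually (gt_mem_nhds (show (0 : ℝ) < 1 / 4 by norm_num))
  have d3 : ∀ᶠ n : ℕ in atTop, m0 ^ 3 + 2 ≤ (n : ℝ) * a :=
    (tendsto_natCast_atTop_atTop.atTop_mul_const ha0).eventually (eventually_ge_atTop _)
  obtain ⟨n, m1, m2, m3⟩ := (d2.and (d3.and (eventually_ge_atTop 1))).exists
  have hn0 : (0 : ℝ) < n := by exact_mod_cast m3
  obtain ⟨x, hx⟩ : ∃ x, x = (n : ℝ) * a := ⟨_, rfl⟩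
  rw [← hx] at m2
  have hx3 : m0 ^ 3 ≤ x := by linarith
  have hm03 : 0 < m0 ^ 3 := by positivity
  have hx2 : 2 ≤ x := by linarith
  have hφn : φ (em ((n : ℤ) • v0)) = x := by
    rw [natCast_zsmul, em_nsmul, map_smul, smul_eq_mul, ← ha, hx]
  have hm1 : 1 < m0 := by
    have := (hM m0 h1).mC
    linarith
  obtain ⟨k, hk⟩ : ∃ k : ℕ, x ≤ m0 ^ (9 * 3 ^ k) := by
    obtain ⟨j, hj⟩ := pow_unbounded_of_one_lt x hm1
    refine ⟨j, hj.le.trans (pow_le_pow_right₀ hm1.le ?_)⟩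
    have : j < 3 ^ j := Nat.lt_pow_self (by norm_num)
    omega
  have f1 := hall k x hx3 hk ((n : ℤ) • v0) (by rw [hφn]; linarith) (by rw [hφn])
  have f2 : (x ^ q)⁻¹ ≤ 1 / 4 := by
    have g1 : (2 : ℝ) ^ 2 ≤ 2 ^ q := pow_le_pow_right₀ (by norm_num) (by omega)
    have g2 : (2 : ℝ) ^ q ≤ x ^ q := pow_le_pow_left₀ (by norm_num) hx2 q
    have g3 : (0 : ℝ) < x ^ q := by positivity
    rw [inv_le_comm₀ g3 (by norm_num)]
    norm_num at g1 ⊢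
    linarith
  have f3 : (volume : Measure Ω).real univ ≤
      (volume : Measure Ω).real {ω | D (env X ω) 0 ((n : ℤ) • v0) <
        φ (em ((n : ℤ) • v0)) + (ρs + x ^ (-(9 / 10) : ℝ)) * x} +
      (volume : Measure Ω).real {ω | ε ≤ dist (D (env X ω) 0 ((n : ℤ) • v0) / (n : ℝ))
        (μ (em v0))} := by
    refine le_trans (measureReal_mono (fun ω _ => ?_) (measure_ne_top _ _))
      (measureReal_union_le _ _)
    by_contra h
    rw [mem_union, not_or] at h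
    have g1 : ¬ (D (env X ω) 0 ((n : ℤ) • v0) <
        φ (em ((n : ℤ) • v0)) + (ρs + x ^ (-(9 / 10) : ℝ)) * x) := h.1
    have g2 : ¬ (ε ≤ dist (D (env X ω) 0 ((n : ℤ) • v0) / (n : ℝ)) (μ (em v0))) := h.2
    rw [not_lt, hφn] at g1
    rw [not_le, Real.dist_eq] at g2
    have g3 := (abs_lt.1 g2).2
    have g4 : D (env X ω) 0 ((n : ℤ) • v0) / (n : ℝ) < a * (1 + ρs) := by linarith
    rw [div_lt_iff₀ hn0] at g4
    have g5 : 0 ≤ x ^ (-(9 / 10) : ℝ) * x := by positivity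
    have g6 : a * (1 + ρs) * n = x + ρs * x := by rw [hx]; ring
    have g7 : (ρs + x ^ (-(9 / 10) : ℝ)) * x = ρs * x + x ^ (-(9 / 10) : ℝ) * x := by ring
    linarith
  have f4 : (volume : Measure Ω).real univ = 1 := by simp
  linarith

end

end Pool.Agent.V7H97.OF
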