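import Pool.Agent.V7H97.OF.Tilt2
import Pool.Agent.V7H97.OF.Iter2

/-!
# The lower tail of the passage time cannot be too thin
-/

set_option autoImplicit false

open MeasureTheory ProbabilityTheory Filter Set
open scoped Topology

namespace Pool.Agent.V7H97.OF

open Pool.Agent.N662.FP Pool.Agent.V7H97.FO Pool.Agent.V7H97.LF

/-- the tangent functional at the point `u` of a circle -/
noncomputable def tg (u : ℝ × ℝ) : (ℝ × ℝ) →ₗ[ℝ] ℝ :=
  (eu u ^ 2)⁻¹ • (u.1 • LinearMap.fst ℝ ℝ ℝ + u.2 • LinearMap.snd ℝ ℝ ℝ)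

theorem tg_apply (u x : ℝ × ℝ) : tg u x = (eu u ^ 2)⁻¹ * (u.1 * x.1 + u.2 * x.2) := rfl

theorem tg_self (u : ℝ × ℝ) (hu : 0 < eu u) : tg u u = 1 := by
  rw [tg_apply]
  have : u.1 * u.1 + u.2 * u.2 = eu u ^ 2 := by rw [eu_sq]; ring
  rw [this]
  exact inv_mul_cancel₀ (by positivity)

theorem tg_le (u x : ℝ × ℝ) (hu : 0 < eu u) : |tg u x| * eu u ≤ eu x := by
  rw [tg_apply, abs_mul, abs_of_pos (by positivity)]
  have h1 : |u.1 * x.1 + u.2 * x.2| ≤ eu u * eu x := by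
    apply abs_le_of_sq_le_sq _ (mul_nonneg hu.le (eu_nonneg x))
    rw [mul_pow, eu_sq, eu_sq]
    nlinarith [sq_nonneg (u.1 * x.2 - u.2 * x.1)]
  have h2 : (eu u ^ 2)⁻¹ * |u.1 * x.1 + u.2 * x.2| * eu u ≤
      (eu u ^ 2)⁻¹ * (eu u * eu x) * eu u := by
    gcongr
  refine h2.trans (le_of_eq ?_)
  field_simp

section
variable {Ω : Type} [MeasureSpace Ω] [IsProbabilityMeasure (volume : Measure Ω)]
variable {X : Sym2 (ℤ × ℤ) → Ω → ℝ}

/-- crude lower tail at a larger scale -/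
theorem lowp (hX : Iid X) {μ : Seminorm ℝ (ℝ × ℝ)} (K1 χ N n : ℝ) (q : ℕ) (hK : 1 ≤ K1)
    (h0 : 0 ≤ χ) (h1 : χ ≤ 1) (hn : 0 < n)
    (hOH : ∀ v : ℤ × ℤ, N ≤ μ (em v) → (volume : Measure Ω).real
      {ω | D (env X ω) 0 v < μ (em v) - μ (em v) ^ χ} ≤ (μ (em v) ^ q)⁻¹)
    (hN : N ≤ n ^ χ) (z : ℤ × ℤ) (hz : μ (em z) ≤ K1 * n) :
    (volume : Measure Ω).real {ω | D (env X ω) 0 z < μ (em z) - K1 * n ^ χ} ≤
      ((n ^ χ) ^ q)⁻¹ := by
  have hp : 0 < n ^ χ := Real.rpow_pos_of_pos hn _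
  rcases le_total (n ^ χ) (μ (em z)) with h | h
  · have h2 : μ (em z) ^ χ ≤ K1 * n ^ χ := by
      calc μ (em z) ^ χ ≤ (K1 * n) ^ χ :=
            Real.rpow_le_rpow (apply_nonneg μ _) hz h0
        _ = K1 ^ χ * n ^ χ := Real.mul_rpow (by linarith) hn.le
        _ ≤ K1 ^ (1 : ℝ) * n ^ χ := by
            gcongr
        _ = K1 * n ^ χ := by rw [Real.rpow_one]
    refine le_trans (measureReal_mono (fun ω hω => ?_) (measure_ne_top _ _))
      ((hOH z (hN.trans h)).trans ?_)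
    · have h3 : D (env X ω) 0 z < μ (em z) - K1 * n ^ χ := hω
      show D (env X ω) 0 z < μ (em z) - μ (em z) ^ χ
      linarith
    · exact inv_anti₀ (by positivity) (pow_le_pow_left₀ hp.le h q)
  · have h2 : (volume : Measure Ω) {ω | D (env X ω) 0 z < μ (em z) - K1 * n ^ χ} = 0 := by
      have hae : ∀ᵐ ω ∂(volume : Measure Ω),
          ¬ (D (env X ω) 0 z < μ (em z) - K1 * n ^ χ) := by
        filter_upwards [cAE Ω X hX] with ω hω
        obtain ⟨-, -, h3, -⟩ := cGE (env X ω) hω 0 z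
        rw [not_lt]
        have h4 : n ^ χ ≤ K1 * n ^ χ := by
          have := mul_le_mul_of_nonneg_right hK hp.le
          rwa [one_mul] at this
        linarith
      exact measure_eq_zero_iff_ae_notMem.2 hae
    rw [measureReal_def, h2]
    simp only [ENNReal.toReal_zero]
    positivity

theorem low_boxp (hX : Iid X) {μ : Seminorm ℝ (ℝ × ℝ)} (K1 χ N n : ℝ) (q : ℕ) (hK : 1 ≤ K1)
    (h0 : 0 ≤ χ) (h1 : χ ≤ 1) (hn : 0 < n)
    (hOH : ∀ v : ℤ × ℤ, N ≤ μ (em v) → (volume : Measure Ω).real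
      {ω | D (env X ω) 0 v < μ (em v) - μ (em v) ^ χ} ≤ (μ (em v) ^ q)⁻¹)
    (hN : N ≤ n ^ χ) (v : ℤ × ℤ) (R : ℕ)
    (hb : ∀ z ∈ Bx R, μ (em z) ≤ K1 * n ∧ μ (em (v - z)) ≤ K1 * n) :
    (volume : Measure Ω).real {ω | ∃ z ∈ Bx R, D (env X ω) 0 z < μ (em z) - K1 * n ^ χ ∨
      D (env X ω) z v < μ (em (v - z)) - K1 * n ^ χ} ≤
      2 * (2 * (R : ℝ) + 1) ^ 2 * ((n ^ χ) ^ q)⁻¹ := by
  have e : {ω | ∃ z ∈ Bx R, D (env X ω) 0 z < μ (em z) - K1 * n ^ χ ∨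
      D (env X ω) z v < μ (em (v - z)) - K1 * n ^ χ} ⊆
      (⋃ z ∈ Bx R, {ω | D (env X ω) 0 z < μ (em z) - K1 * n ^ χ}) ∪
      (⋃ z ∈ Bx R, {ω | D (env X ω) z v < μ (em (v - z)) - K1 * n ^ χ}) := by
    rintro ω ⟨z, hz, h | h⟩
    · exact Or.inl (mem_iUnion₂.2 ⟨z, hz, h⟩)
    · exact Or.inr (mem_iUnion₂.2 ⟨z, hz, h⟩)
  refine (measureReal_mono e (measure_ne_top _ _)).trans ((measureReal_union_le _ _).trans ?_)
  have p1 : (volume : Measure Ω).real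
      (⋃ z ∈ Bx R, {ω | D (env X ω) 0 z < μ (em z) - K1 * n ^ χ}) ≤
      (2 * (R : ℝ) + 1) ^ 2 * ((n ^ χ) ^ q)⁻¹ := by
    refine (measureReal_biUnion_finset_le _ _).trans ?_
    refine (Finset.sum_le_card_nsmul _ _ (((n ^ χ) ^ q)⁻¹) fun z hz => ?_).trans ?_
    · exact lowp hX K1 χ N n q hK h0 h1 hn hOH hN z (hb z hz).1
    · rw [nsmul_eq_mul, card_Bx]
  have p2 : (volume : Measure Ω).real
      (⋃ z ∈ Bx R, {ω | D (env X ω) z v < μ (em (v - z)) - K1 * n ^ χ}) ≤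
      (2 * (R : ℝ) + 1) ^ 2 * ((n ^ χ) ^ q)⁻¹ := by
    refine (measureReal_biUnion_finset_le _ _).trans ?_
    refine (Finset.sum_le_card_nsmul _ _ (((n ^ χ) ^ q)⁻¹) fun z hz => ?_).trans ?_
    · rw [law_lt hX]
      exact lowp hX K1 χ N n q hK h0 h1 hn hOH hN (v - z) (hb z hz).2
    · rw [nsmul_eq_mul, card_Bx]
  linarith

end

/-- the points outside of the tube -/
theorem outs (μ : Seminorm ℝ (ℝ × ℝ)) (v : ℤ × ℤ) (R0 t H K2 s a : ℝ) (hR0 : 0 < R0)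
    (hu : ∀ x, eu x ≤ R0 * μ x) (he1 : eu (em v) ≤ t * R0 + 1) (ht : 1 < t) (hHt : H < t)
    (M : ℕ) (hM1 : (R0 + 2) * t ≤ M)
    (S : Finset (ℤ × ℤ)) (hS : ∀ w, w ∈ S ↔ w ∈ Bx M ∧ eu (em w) + eu (em v - em w) ≤
      eu (em v) + H) (x : Sym2 (ℤ × ℤ) → ℝ)
    (hnE : ∀ z ∈ Bx (M + 1), μ (em z) - K2 * s ≤ D x 0 z ∧ μ (em (v - z)) - K2 * s ≤ D x z v)
    (ha : R0 * (a + 2 * (K2 * s)) ≤ eu (em v) + H) (w : ℤ × ℤ) (hw : w ∉ S)
    (hz : ∃ z ∈ S, |w.1 - z.1| + |w.2 - z.2| = 1) : a ≤ D x 0 w + D x w v := by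
  obtain ⟨z, hzS, hzw⟩ := hz
  have hmax : eu (em v) + H ≤ M := by
    have : (R0 + 2) * t = t * R0 + t + t := by ring
    linarith
  have hzS' : z ∈ Bx M := ((hS z).1 hzS).1
  have hwB : w ∈ Bx (M + 1) := by
    rw [mem_Bx] at hzS' ⊢
    have g1 := abs_nonneg (w.1 - z.1)
    have g2 := abs_nonneg (w.2 - z.2)
    have g3 : |w.1| ≤ |w.1 - z.1| + |z.1| := by
      have := abs_add_le (w.1 - z.1) z.1
      rwa [sub_add_cancel] at this
    have g4 : |w.2| ≤ |w.2 - z.2| + |z.2| := by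
      have := abs_add_le (w.2 - z.2) z.2
      rwa [sub_add_cancel] at this
    push_cast
    constructor
    · linarith [hzS'.1]
    · linarith [hzS'.2]
  have hfar : eu (em v) + H ≤ eu (em w) + eu (em v - em w) := by
    by_contra hcon
    rw [not_le] at hcon
    apply hw
    rw [hS]
    refine ⟨?_, hcon.le⟩
    rw [mem_Bx]
    have h1 : |(w.1 : ℝ)| ≤ eu (em w) := fst_le (em w)
    have h2 : |(w.2 : ℝ)| ≤ eu (em w) := snd_le (em w)
    have h5 := eu_nonneg (em v - em w)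
    have h3 : |(w.1 : ℝ)| ≤ (M : ℝ) := by linarith
    have h4 : |(w.2 : ℝ)| ≤ (M : ℝ) := by linarith
    exact ⟨by exact_mod_cast h3, by exact_mod_cast h4⟩
  obtain ⟨g1, g2⟩ := hnE w hwB
  have g3 := hu (em w)
  have g4 := hu (em v - em w)
  rw [em_sub] at g2
  have g5 : R0 * (a + 2 * (K2 * s)) ≤ R0 * (μ (em w) + μ (em v - em w)) := by
    have : R0 * (μ (em w) + μ (em v - em w)) = R0 * μ (em w) + R0 * μ (em v - em w) := by ring
    linarith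
  have g6 := le_of_mul_le_mul_left g5 hR0
  linarith

end Pool.Agent.V7H97.OF
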