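import Pool.Agent.V7H97.OF.Main2
import Pool.Agent.V7H97.LF.Fin

/-!
# The outer estimate is false for exponents above `4 / 5`
-/

set_option autoImplicit false

open MeasureTheory ProbabilityTheory Filter Set
open scoped Pointwise Topology

namespace Pool.Agent.V7H97.OF

open Pool.Agent.N662.FP Pool.Agent.V7H97.FO Pool.Agent.V7H97.LF

/-- a fast passage makes the cluster too large -/
theorem out_of_fast {Ω : Type} (T : Ω → ℤ × ℤ → ℝ) (μ : Seminorm ℝ (ℝ × ℝ)) (κ χ n : ℝ) (hn : 4 ≤ n)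
    (hχ0 : 0 < χ) (hκχ : 1 - κ < χ) (hs : 2 * n ^ χ ≤ n) (v : ℤ × ℤ) (hv : μ (em v) = n) :
    {ω | T ω v < n - n ^ χ} ⊆ Out T μ κ (n - n ^ χ) := by
  intro ω hω hcon
  have h1 : T ω v < n - n ^ χ := hω
  have h2 : em v ∈ Fat (T ω) (n - n ^ χ) := by
    refine ⟨v, h1.le, ?_, ?_⟩
    · show |(v.1 : ℝ) - (v.1 : ℝ)| ≤ 1 / 2
      simp
    · show |(v.2 : ℝ) - (v.2 : ℝ)| ≤ 1 / 2
      simp
  obtain ⟨t, ht⟩ : ∃ t, t = n - n ^ χ := ⟨_, rfl⟩
  rw [← ht] at h2 hcon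
  have ht2 : 2 ≤ t := by rw [ht]; linarith
  have ht0 : 0 < t := by linarith
  have htn : t ≤ n := by
    have := Real.rpow_nonneg (show (0 : ℝ) ≤ n by linarith) χ
    rw [ht]; linarith
  obtain ⟨y, hy, hyv⟩ := hcon h2
  have hy1 : μ y ≤ 1 := hy
  have h3 : 0 < 1 + t ^ (-κ) := by positivity
  have h4 : μ (em v) ≤ (1 + t ^ (-κ)) * t := by
    rw [← hyv]
    show μ (((1 + t ^ (-κ)) * t) • y) ≤ _
    rw [map_smul_eq_mul, Real.norm_eq_abs, abs_of_pos (by positivity)]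
    calc (1 + t ^ (-κ)) * t * μ y ≤ (1 + t ^ (-κ)) * t * 1 := by gcongr
      _ = _ := mul_one _
  have h5 : (1 + t ^ (-κ)) * t = t + t ^ (1 - κ) := by
    have : t ^ (1 - κ) = t ^ (-κ) * t := by
      rw [← Real.rpow_add_one ht0.ne']; congr 1; ring
    rw [this]; ring
  have h6 : t ^ (1 - κ) ≤ n ^ (max (1 - κ) 0) := by
    calc t ^ (1 - κ) ≤ t ^ (max (1 - κ) 0) :=
          Real.rpow_le_rpow_of_exponent_le (by linarith) (le_max_left _ _)
      _ ≤ n ^ (max (1 - κ) 0) := Real.rpow_le_rpow ht0.le htn (le_max_right _ _)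
  have h7 : n ^ (max (1 - κ) 0) < n ^ χ :=
    Real.rpow_lt_rpow_of_exponent_lt (by linarith) (max_lt hκχ hχ0)
  rw [hv, h5] at h4
  rw [ht] at h4
  rw [← ht] at h4
  linarith

section
variable {Ω : Type} [MeasureSpace Ω] [IsProbabilityMeasure (volume : Measure Ω)]
variable {X : Sym2 (ℤ × ℤ) → Ω → ℝ}

/-- the exponent -/
theorem not_OH (hX : Iid X) {μ : Seminorm ℝ (ℝ × ℝ)} (hμ : ∀ x, μ x = 0 → x = 0)
    (hlim : ∀ v : ℤ × ℤ, ∀ᵐ ω ∂(volume : Measure Ω),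
      Tendsto (fun n : ℕ => D (env X ω) 0 ((n : ℤ) • v) / (n : ℝ)) atTop (𝓝 (μ (em v)))) :
    ∀ χ : ℝ, 1 / 10 ≤ χ → χ < 1 / 5 → ¬ OH X μ χ 480 := by
  intro χ h1 h2 hO
  exact no_OH hX hμ hlim χ h1 h2 45 480 (by norm_num) (by norm_num) (by norm_num) hO

/-- the outer estimate fails above `4 / 5` -/
theorem outer_fails {μ : Seminorm ℝ (ℝ × ℝ)}
    (Q : ℕ) (hQ : ∀ χ : ℝ, 1 / 10 ≤ χ → χ < 1 / 5 → ¬ OH X μ χ Q) (κ : ℝ) (hκ : 4 / 5 < κ) :
    ∃ᶠ t : ℝ in atTop, t ^ (-((Q : ℝ) + 1)) <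
      (volume : Measure Ω).real (Out (fun ω v => D (env X ω) 0 v) μ κ t) := by
  intro hcon
  obtain ⟨χ, hχd⟩ : ∃ χ, χ = max ((1 - κ + 1 / 5) / 2) (1 / 10) := ⟨_, rfl⟩
  have c1 : 1 / 10 ≤ χ := by rw [hχd]; exact le_max_right _ _
  have c2 : χ < 1 / 5 := by rw [hχd]; exact max_lt (by linarith) (by norm_num)
  have c3 : 1 - κ < χ := by
    rw [hχd]
    exact lt_of_lt_of_le (by linarith) (le_max_left _ _)
  refine hQ χ c1 c2 ?_
  have e1 : ∀ᶠ t : ℝ in atTop, (volume : Measure Ω).real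
      (Out (fun ω v => D (env X ω) 0 v) μ κ t) ≤ t ^ (-((Q : ℝ) + 1)) := by
    filter_upwards [hcon] with t ht
    exact not_lt.1 ht
  obtain ⟨t0, ht0⟩ := eventually_atTop.1 e1
  have e2 := ev 2 χ 1 (by linarith)
  obtain ⟨n0, hn0⟩ := eventually_atTop.1 e2
  refine ⟨max (max (2 * t0) n0) (max 4 (2 ^ (Q + 1))), fun v hv => ?_⟩
  obtain ⟨n, hn⟩ : ∃ n, n = μ (em v) := ⟨_, rfl⟩
  rw [← hn] at hv ⊢
  have v1 : 2 * t0 ≤ n := ((le_max_left _ _).trans (le_max_left _ _)).trans hv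
  have v2 : n0 ≤ n := ((le_max_right _ _).trans (le_max_left _ _)).trans hv
  have v3 : 4 ≤ n := ((le_max_left _ _).trans (le_max_right _ _)).trans hv
  have v4 : (2 : ℝ) ^ (Q + 1) ≤ n := ((le_max_right _ _).trans (le_max_right _ _)).trans hv
  have hs := hn0 n v2
  rw [Real.rpow_one] at hs
  obtain ⟨t, ht⟩ : ∃ t, t = n - n ^ χ := ⟨_, rfl⟩
  have ht2 : n / 2 ≤ t := by rw [ht]; linarith
  have htp : 0 < t := by linarith
  have h1 := measureReal_mono (μ := (volume : Measure Ω))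
    (out_of_fast (fun ω v => D (env X ω) 0 v) μ κ χ n v3 (by linarith) c3 hs v hn.symm)
    (measure_ne_top _ _)
  rw [← ht] at h1
  have h2 := ht0 t (by linarith)
  refine le_trans ?_ (le_trans h1 (h2.trans ?_))
  · rw [← ht]
  · have e3 : t ^ (-((Q : ℝ) + 1)) = (t ^ (Q + 1))⁻¹ := by
      rw [Real.rpow_neg htp.le]
      congr 1
      have : (Q : ℝ) + 1 = ((Q + 1 : ℕ) : ℝ) := by push_cast; ring
      rw [this, Real.rpow_natCast]
    rw [e3]
    have hnp : 0 < n := by linarith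
    apply inv_anti₀ (by positivity)
    have h5 : (n / 2) ^ (Q + 1) ≤ t ^ (Q + 1) := pow_le_pow_left₀ (by positivity) ht2 _
    refine le_trans ?_ h5
    rw [div_pow, le_div_iff₀ (by positivity), pow_succ]
    exact mul_le_mul_of_nonneg_left v4 (by positivity)

/-- one point -/
theorem point_fails {μ : Seminorm ℝ (ℝ × ℝ)} (hμ : ∀ x, μ x = 0 → x = 0)
    (Q : ℕ) (hQ : ∀ χ : ℝ, 1 / 10 ≤ χ → χ < 1 / 5 → ¬ OH X μ χ Q) (χ A N : ℝ) (hχ : χ < 1 / 5) :
    ∃ v : ℤ × ℤ, N ≤ 1 + |(v.1 : ℝ)| + |(v.2 : ℝ)| ∧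
      (1 + |(v.1 : ℝ)| + |(v.2 : ℝ)|) ^ (-((Q : ℝ) + 1)) < (volume : Measure Ω).real
        {ω | D (env X ω) 0 v + A * (1 + |(v.1 : ℝ)| + |(v.2 : ℝ)|) ^ χ ≤ μ (em v)} := by
  obtain ⟨c, hc⟩ : ∃ c, c = max χ (1 / 20) := ⟨_, rfl⟩
  have hc0 : 0 < c := by rw [hc]; exact lt_max_of_lt_right (by norm_num)
  have hc1 : c < 1 / 5 := by rw [hc]; exact max_lt hχ (by norm_num)
  have hχc : χ ≤ c := by rw [hc]; exact le_max_left _ _
  obtain ⟨e, he⟩ : ∃ e, e = max ((c + 1 / 5) / 2) (1 / 10) := ⟨_, rfl⟩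
  have g1 : 1 / 10 ≤ e := by rw [he]; exact le_max_right _ _
  have g2 : e < 1 / 5 := by rw [he]; exact max_lt (by linarith) (by norm_num)
  have g3 : c < e := by rw [he]; exact lt_of_lt_of_le (by linarith) (le_max_left _ _)
  obtain ⟨C, hC1, hCc⟩ := size_cmp μ hμ
  have hC0 : 0 < C := by linarith
  have h1 := hQ e g1 g2
  have e2 := ev (2 * (|A| * C ^ c)) c e g3
  obtain ⟨n0, hn0⟩ := eventually_atTop.1 e2
  unfold OH at h1
  push Not at h1
  obtain ⟨v, hv, hlt⟩ := h1 (max (max n0 1) (max (C * N) (C * C ^ Q)))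
  refine ⟨v, ?_⟩
  obtain ⟨n, hn⟩ : ∃ n, n = μ (em v) := ⟨_, rfl⟩
  rw [← hn] at hv hlt ⊢
  have v1 : n0 ≤ n := ((le_max_left _ _).trans (le_max_left _ _)).trans hv
  have v2 : 1 ≤ n := ((le_max_right _ _).trans (le_max_left _ _)).trans hv
  have v3 : C * N ≤ n := ((le_max_left _ _).trans (le_max_right _ _)).trans hv
  have v4 : C * C ^ Q ≤ n := ((le_max_right _ _).trans (le_max_right _ _)).trans hv
  obtain ⟨k1, k2⟩ := hCc v
  rw [← hn] at k1 k2
  obtain ⟨sz, hsz⟩ : ∃ sz, sz = 1 + |(v.1 : ℝ)| + |(v.2 : ℝ)| := ⟨_, rfl⟩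
  have hp := size_pow v A χ c hχc
  rw [← hsz] at k1 k2 hp ⊢
  have hsz1 : 1 ≤ sz := by rw [hsz]; exact one_le_size v
  have hnC : n ≤ C * sz := by linarith
  constructor
  · have : C * N ≤ C * sz := by linarith
    exact le_of_mul_le_mul_left this hC0
  · refine lt_of_le_of_lt ?_ (lt_of_lt_of_le hlt (measureReal_mono (fun ω hω => ?_)
      (measure_ne_top _ _)))
    · have e3 : sz ^ (-((Q : ℝ) + 1)) = (sz ^ (Q + 1))⁻¹ := by
        rw [Real.rpow_neg (by linarith)]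
        congr 1
        have : (Q : ℝ) + 1 = ((Q + 1 : ℕ) : ℝ) := by push_cast; ring
        rw [this, Real.rpow_natCast]
      rw [e3]
      apply inv_anti₀ (by positivity)
      have f1 : C ^ Q ≤ sz := by
        have : C * C ^ Q ≤ C * sz := by linarith
        exact le_of_mul_le_mul_left this hC0
      calc n ^ Q ≤ (C * sz) ^ Q := pow_le_pow_left₀ (by linarith) hnC Q
        _ = sz ^ Q * C ^ Q := by rw [mul_pow, mul_comm]
        _ ≤ sz ^ Q * sz := mul_le_mul_of_nonneg_left f1 (by positivity)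
        _ = sz ^ (Q + 1) := (pow_succ _ _).symm
    · have h5 : D (env X ω) 0 v < n - n ^ e := hω
      show D (env X ω) 0 v + A * sz ^ χ ≤ n
      have h6 : sz ^ c ≤ C ^ c * (1 + n) ^ c :=
        pow_cmp (by linarith) hC0.le (by linarith) k2 hc0.le
      have h7 : (1 + n) ^ c ≤ 2 * n ^ c := by
        calc (1 + n) ^ c ≤ (2 * n) ^ c := Real.rpow_le_rpow (by linarith) (by linarith) hc0.le
          _ = 2 ^ c * n ^ c := Real.mul_rpow (by norm_num) (by linarith)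
          _ ≤ 2 ^ (1 : ℝ) * n ^ c := by
              apply mul_le_mul_of_nonneg_right _ (Real.rpow_nonneg (by linarith) _)
              exact Real.rpow_le_rpow_of_exponent_le (by norm_num) (by linarith)
          _ = 2 * n ^ c := by rw [Real.rpow_one]
      have h8 : |A| * sz ^ c ≤ |A| * (C ^ c * (2 * n ^ c)) := by
        apply mul_le_mul_of_nonneg_left _ (abs_nonneg A)
        refine h6.trans ?_
        apply mul_le_mul_of_nonneg_left h7 (by positivity)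
      have h9 := hn0 n v1
      have h10 : |A| * (C ^ c * (2 * n ^ c)) = 2 * (|A| * C ^ c) * n ^ c := by ring
      linarith

end

end Pool.Agent.V7H97.OF
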