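import Pool.Agent.V7H97.OF.Core2

/-!
# The lower tail of the passage time cannot be too thin: conclusion
-/

set_option autoImplicit false

open MeasureTheory ProbabilityTheory Filter Set
open scoped Topology

namespace Pool.Agent.V7H97.OF

open Pool.Agent.N662.FP Pool.Agent.V7H97.FO Pool.Agent.V7H97.LF

/-- the scale is large -/
structure EV2 (q : ℕ) (C N R0 K1 χ h t : ℝ) : Prop where
  tC : 36 * C + 36 ≤ t
  tN : N ≤ t / 6
  sN : N ≤ t ^ χ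
  f2 : 18 * t ^ χ ≤ t ^ (1 : ℝ)
  f4 : 17 * (4 * ((8 * (R0 + 2) + 3) * (2 * R0 + 7))) * t ^ ((3 + h) / 2) ≤ t ^ (2 - 2 * h)
  f5 : 4 * (2 * R0 + 9) ^ 2 ≤ t
  f6 : R0 * (2 + 2 * K1) * t ^ χ ≤ t ^ h
  f7 : 18 * t ^ χ ≤ t ^ h
  f8 : 5 * 6 ^ (2 * q + 1) ≤ t

theorem ev_EV2 (q : ℕ) (C N R0 K1 χ h : ℝ) (hχ : 0 < χ) (hχh : χ < h) (hh : h < 1 / 5) :
    ∀ᶠ t : ℝ in atTop, EV2 q C N R0 K1 χ h t := by
  filter_upwards [eventually_ge_atTop (36 * C + 36), eventually_ge_atTop (6 * N),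
    ev0 N χ hχ, ev 18 χ 1 (by linarith),
    ev (17 * (4 * ((8 * (R0 + 2) + 3) * (2 * R0 + 7)))) ((3 + h) / 2) (2 - 2 * h) (by linarith),
    eventually_ge_atTop (4 * (2 * R0 + 9) ^ 2), ev (R0 * (2 + 2 * K1)) χ h hχh, ev 18 χ h hχh,
    eventually_ge_atTop ((5 : ℝ) * 6 ^ (2 * q + 1))] with t a1 a2 a3 a4 a5 a6 a7 a8 a9
  exact ⟨a1, by linarith, a3, a4, a5, a6, a7, a8, a9⟩

/-- the comparison of the probabilities -/
theorem fin_prob (q : ℕ) (t m p pE pS B : ℝ) (ht : 0 < t) (hm : m = t / 3)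
    (h8 : 5 * 6 ^ (2 * q + 1) ≤ t) (hp : (m ^ q)⁻¹ < p) (hE : pE ≤ (m ^ q)⁻¹ / 2)
    (hS : p ≤ pS + pE) (hB : B ≤ ((t / 6) ^ (2 * q + 1))⁻¹)
    (hcmp : ∀ c : ℝ, 0 < c → pS ≤ c / 2 * B + 1 / (2 * c) * (17 / 16)) : False := by
  have hm0 : 0 < m := by rw [hm]; positivity
  obtain ⟨y, hy⟩ : ∃ y, y = (m ^ q)⁻¹ / 2 := ⟨_, rfl⟩
  have hy0 : 0 < y := by rw [hy]; positivity
  have h1 : y ≤ pS := by
    rw [hy]
    linarith
  have h2 := hcmp (17 / (16 * y)) (by positivity)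
  have e1 : 1 / (2 * (17 / (16 * y))) * (17 / 16) = y / 2 := by field_simp
  rw [e1] at h2
  have h3 : y / 2 ≤ 17 / (16 * y) / 2 * B := by linarith
  have h4 : 16 * y ^ 2 ≤ 17 * B := by
    have e2 : 17 / (16 * y) / 2 * B = 17 * B / (32 * y) := by field_simp; ring
    rw [e2, le_div_iff₀ (by positivity)] at h3
    nlinarith
  have h5 : (t ^ q)⁻¹ ≤ (m ^ q)⁻¹ :=
    inv_anti₀ (by positivity) (pow_le_pow_left₀ hm0.le (by rw [hm]; linarith) q)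
  have h6 : (t ^ q)⁻¹ / 2 ≤ y := by rw [hy]; linarith
  have h7 : ((t ^ q)⁻¹ / 2) ^ 2 ≤ y ^ 2 := pow_le_pow_left₀ (by positivity) h6 2
  have h9 : 4 * ((t ^ q)⁻¹) ^ 2 ≤ 17 * ((t / 6) ^ (2 * q + 1))⁻¹ := by
    have e3 : ((t ^ q)⁻¹ / 2) ^ 2 = ((t ^ q)⁻¹) ^ 2 / 4 := by ring
    rw [e3] at h7
    linarith
  have e4 : ((t / 6) ^ (2 * q + 1))⁻¹ = 6 ^ (2 * q + 1) * t⁻¹ * ((t ^ q)⁻¹) ^ 2 := by
    rw [div_pow, inv_div, pow_succ t (2 * q), mul_comm 2 q, pow_mul t q 2]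
    field_simp
  rw [e4] at h9
  obtain ⟨z, hz⟩ : ∃ z, z = ((t ^ q)⁻¹) ^ 2 := ⟨_, rfl⟩
  rw [← hz] at h9
  have hz0 : 0 < z := by rw [hz]; positivity
  have h10 : 6 ^ (2 * q + 1) * t⁻¹ ≤ 1 / 5 := by
    rw [mul_inv_le_iff₀ ht]
    linarith
  have h11 : 17 * (6 ^ (2 * q + 1) * t⁻¹ * z) ≤ 17 * (1 / 5 * z) := by gcongr
  linarith

section
variable {Ω : Type} [MeasureSpace Ω] [IsProbabilityMeasure (volume : Measure Ω)]
variable {X : Sym2 (ℤ × ℤ) → Ω → ℝ}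

/-- the statement at one scale -/
theorem scale2 (hX : Iid X) {μ : Seminorm ℝ (ℝ × ℝ)} (Cn : ℝ) (hCn : 0 < Cn)
    (hnorm : ∀ x : ℝ × ℝ, μ x ≤ Cn * max |x.1| |x.2|) (C : ℝ) (hC : 0 < C)
    (u : ℝ × ℝ) (R0 : ℝ) (hR : R0 = eu u) (hR0 : 0 < R0)
    (hu : ∀ x, eu x ≤ R0 * μ x) (hφ : ∀ x, |tg u x| ≤ μ x)
    (q q3 : ℕ) (χ h N K1 t : ℝ) (hχ0 : 0 < χ) (hχh : χ < h) (hh : h < 1 / 5)
    (hq3 : (q : ℝ) + 3 ≤ χ * q3)
    (hO1 : ∀ v : ℤ × ℤ, N ≤ μ (em v) → (volume : Measure Ω).real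
      {ω | D (env X ω) 0 v < μ (em v) - μ (em v) ^ χ} ≤ (μ (em v) ^ (q + 1))⁻¹)
    (hO2 : ∀ v : ℤ × ℤ, N ≤ μ (em v) → (volume : Measure Ω).real
      {ω | D (env X ω) 0 v < μ (em v) - μ (em v) ^ χ} ≤ (μ (em v) ^ q3)⁻¹)
    (hO3 : ∀ v : ℤ × ℤ, N ≤ μ (em v) → (volume : Measure Ω).real
      {ω | D (env X ω) 0 v < μ (em v) - μ (em v) ^ χ} ≤ (μ (em v) ^ (2 * q + 1))⁻¹)
    (hK1 : K1 = 1 + Cn * (R0 + 4)) (hE : EV2 q C N R0 K1 χ h t) (w : ℤ × ℤ)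
    (hw1 : t / 3 - 2 * C ≤ tg u (em w)) (hw2 : tg u (em w) ≤ t / 3)
    (hw3 : ((t / 3) ^ q)⁻¹ < (volume : Measure Ω).real
      {ω | D (env X ω) 0 w < tg u (em w) + 2 * (t / 3) ^ χ}) : False := by
  classical
  obtain ⟨a1, a2, a3, a4, a5, a6, a7, a8, a9⟩ := hE
  rw [Real.rpow_one] at a4
  have ht : 1 < t := by linarith
  have ht0 : 0 < t := by linarith
  have hχ1 : χ < 1 := by linarith
  obtain ⟨m, hm⟩ : ∃ m, m = t / 3 := ⟨_, rfl⟩
  have hm0 : 0 < m := by rw [hm]; positivity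
  have hmt : m ≤ t := by rw [hm]; linarith
  rw [← hm] at hw1 hw2 hw3
  have hms : m ^ χ ≤ t ^ χ := Real.rpow_le_rpow hm0.le hmt hχ0.le
  have hs1 : 1 ≤ t ^ χ := Real.one_le_rpow ht.le hχ0.le
  have hmC : m / 2 ≤ m - 2 * C := by rw [hm]; linarith
  have hφw := (le_abs_self _).trans (hφ (em w))
  have hμ1 : m / 2 ≤ μ (em w) := by linarith
  have hμN : N ≤ μ (em w) := by rw [hm] at hμ1; linarith
  -- step A
  have hμt : μ (em w) ≤ t := by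
    by_contra hcon
    rw [not_le] at hcon
    have h1 := sub_pow_mono (μ (em w)) t χ ht.le hcon.le hχ1.le
    have h2 : (volume : Measure Ω).real {ω | D (env X ω) 0 w < tg u (em w) + 2 * m ^ χ} ≤
        (m ^ q)⁻¹ := by
      refine le_trans (measureReal_mono (fun ω hω => ?_) (measure_ne_top _ _))
        ((hO1 w hμN).trans ?_)
      · have h5 : D (env X ω) 0 w < tg u (em w) + 2 * m ^ χ := hω
        show D (env X ω) 0 w < μ (em w) - μ (em w) ^ χ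
        linarith
      · apply inv_anti₀ (by positivity)
        calc m ^ q ≤ μ (em w) ^ q := pow_le_pow_left₀ hm0.le (by linarith) q
          _ ≤ μ (em w) ^ (q + 1) := pow_le_pow_right₀ (by linarith) (by omega)
    linarith
  have he1 : eu (em w) ≤ t * R0 + 1 := by
    have h1 := hu (em w)
    have h2 : R0 * μ (em w) ≤ R0 * t := mul_le_mul_of_nonneg_left hμt hR0.le
    linarith
  have hw0 : w ≠ 0 := by
    rintro rfl
    rw [em_zero, map_zero] at hμ1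
    linarith
  obtain ⟨M, hM⟩ : ∃ M : ℕ, M = ⌈(R0 + 2) * t⌉₊ := ⟨_, rfl⟩
  have hM1 : (R0 + 2) * t ≤ M := by rw [hM]; exact Nat.le_ceil _
  have hM2 : (M : ℝ) ≤ (R0 + 2) * t + 1 := by
    have := Nat.ceil_lt_add_one (show 0 ≤ (R0 + 2) * t by positivity)
    rw [← hM] at this
    exact this.le
  obtain ⟨S, hS, hSc⟩ := tube R0 h t hR0 w hw0 he1 ht (by linarith) (by linarith) M hM
  obtain ⟨H, hH⟩ : ∃ H, H = t ^ h := ⟨_, rfl⟩
  obtain ⟨δ, hδ⟩ : ∃ δ, δ = H / t := ⟨_, rfl⟩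
  have hδF := r8 H h t δ _ _ ht0 hH hδ hSc a5
  have hH0 : 0 < H := by rw [hH]; positivity
  have hHt : H < t := by
    rw [hH]
    conv_rhs => rw [← Real.rpow_one t]
    exact Real.rpow_lt_rpow_of_exponent_lt ht (by linarith)
  have hδ0 : 0 < δ := by rw [hδ]; positivity
  have hδ1 : δ < 1 := by rw [hδ, div_lt_one ht0]; exact hHt
  have hδt : δ * t = H := by rw [hδ]; field_simp
  rw [← hH] at hS a7 a8
  obtain ⟨s, hs⟩ : ∃ s, s = t ^ χ := ⟨_, rfl⟩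
  have hK1' : 1 ≤ K1 := by
    rw [hK1]
    have : 0 < Cn * (R0 + 4) := by positivity
    linarith
  have hbox : ∀ z ∈ Bx (M + 1), μ (em z) ≤ K1 * t ∧ μ (em (w - z)) ≤ K1 * t := by
    intro z hz
    rw [mem_Bx] at hz
    have h1 : |(z.1 : ℝ)| ≤ (M : ℝ) + 1 := by exact_mod_cast hz.1
    have h2 : |(z.2 : ℝ)| ≤ (M : ℝ) + 1 := by exact_mod_cast hz.2
    have h3 : max |(em z).1| |(em z).2| ≤ (R0 + 4) * t := by
      refine max_le ?_ ?_
      · refine le_trans (show |(em z).1| ≤ (M : ℝ) + 1 from h1) ?_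
        linarith
      · refine le_trans (show |(em z).2| ≤ (M : ℝ) + 1 from h2) ?_
        linarith
    have h4 : μ (em z) ≤ Cn * ((R0 + 4) * t) := (hnorm _).trans (by gcongr)
    have h5 : μ (em (w - z)) ≤ μ (em w) + μ (em z) := by
      rw [em_sub]; exact map_sub_le_add μ _ _
    have e1 : K1 * t = t + Cn * ((R0 + 4) * t) := by rw [hK1]; ring
    rw [e1]
    constructor <;> linarith
  have hEb := low_boxp hX K1 χ N t q3 hK1' hχ0.le hχ1.le ht0 hO2 a3 w (M + 1) hbox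
  rw [← hs] at hEb a7 a8 hms
  have hEb' : (volume : Measure Ω).real {ω | ∃ z ∈ Bx (M + 1), D (env X ω) 0 z < μ (em z) - K1 * s ∨
      D (env X ω) z w < μ (em (w - z)) - K1 * s} ≤ (m ^ q)⁻¹ / 2 := by
    refine hEb.trans ?_
    have h1 : 2 * ((M + 1 : ℕ) : ℝ) + 1 ≤ (2 * R0 + 9) * t := by push_cast; linarith
    have h2 : (2 * ((M + 1 : ℕ) : ℝ) + 1) ^ 2 ≤ ((2 * R0 + 9) * t) ^ 2 :=
      pow_le_pow_left₀ (by positivity) h1 2
    have h3 : t ^ (q + 3) ≤ s ^ q3 := by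
      rw [hs, ← Real.rpow_natCast (t ^ χ) q3, ← Real.rpow_mul ht0.le, ← Real.rpow_natCast t (q + 3)]
      apply Real.rpow_le_rpow_of_exponent_le ht.le
      push_cast
      exact hq3
    have h4 : (s ^ q3)⁻¹ ≤ (t ^ (q + 3))⁻¹ := inv_anti₀ (by positivity) h3
    have h5 : (t ^ q)⁻¹ ≤ (m ^ q)⁻¹ :=
      inv_anti₀ (by positivity) (pow_le_pow_left₀ hm0.le hmt q)
    have h6 : 0 ≤ (s ^ q3)⁻¹ := by
      have : 0 < s := by linarith
      positivity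
    calc 2 * (2 * ((M + 1 : ℕ) : ℝ) + 1) ^ 2 * (s ^ q3)⁻¹ ≤
          2 * ((2 * R0 + 9) * t) ^ 2 * (t ^ (q + 3))⁻¹ := by gcongr
      _ = (4 * (2 * R0 + 9) ^ 2 * t⁻¹) * ((t ^ q)⁻¹ / 2) := by
          rw [pow_add]
          field_simp
          norm_num
      _ ≤ 1 * ((t ^ q)⁻¹ / 2) := by
          apply mul_le_mul_of_nonneg_right _ (by positivity)
          rw [mul_inv_le_iff₀ ht0]
          linarith
      _ ≤ _ := by linarith
  obtain ⟨a, ha⟩ : ∃ a, a = tg u (em w) + 2 * m ^ χ := ⟨_, rfl⟩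
  rw [← ha] at hw3
  have h0S : (0 : ℤ × ℤ) ∈ S := by
    rw [hS]
    refine ⟨by rw [mem_Bx]; simp, ?_⟩
    rw [em_zero, eu_zero, sub_zero]
    linarith
  have haout : R0 * (a + 2 * (K1 * s)) ≤ eu (em w) + H := by
    have h1 := tg_le u (em w) (by rw [← hR]; exact hR0)
    rw [← hR] at h1
    have h2 : R0 * tg u (em w) ≤ |tg u (em w)| * R0 := by
      rw [mul_comm]
      exact mul_le_mul_of_nonneg_right (le_abs_self _) hR0.le
    have h3 : R0 * (a + 2 * (K1 * s)) ≤ R0 * tg u (em w) + R0 * (2 + 2 * K1) * s := by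
      rw [ha]
      have h4 : R0 * (2 * m ^ χ) ≤ R0 * (2 * s) := by gcongr
      have e1 : R0 * (tg u (em w) + 2 * m ^ χ + 2 * (K1 * s)) =
        R0 * tg u (em w) + R0 * (2 * m ^ χ) + R0 * (2 * (K1 * s)) := by ring
      have e2 : R0 * (2 + 2 * K1) * s = R0 * (2 * s) + R0 * (2 * (K1 * s)) := by ring
      rw [e1, e2]
      linarith
    linarith
  have hlev : (1 - δ) * a ≤ μ (em w) - μ (em w) ^ χ := by
    have h1 : μ (em w) ^ χ ≤ s := by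
      rw [hs]; exact Real.rpow_le_rpow (apply_nonneg μ _) hμt hχ0.le
    have h2 : H / 6 ≤ δ * a := by
      have h3 : δ * (t / 6) ≤ δ * a := by
        apply mul_le_mul_of_nonneg_left _ hδ0.le
        have h4 : 0 ≤ m ^ χ := Real.rpow_nonneg hm0.le _
        rw [ha]
        have h5 : m / 2 = t / 6 := by rw [hm]; ring
        linarith
      have e1 : δ * (t / 6) = H / 6 := by rw [← hδt]; ring
      linarith
    have e2 : (1 - δ) * a = a - δ * a := by ring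
    rw [e2]
    have h6 : a ≤ μ (em w) + 2 * s := by rw [ha]; linarith
    linarith
  have hB : (volume : Measure Ω).real {ω | D (env X ω) 0 w < (1 - δ) * a} ≤
      ((t / 6) ^ (2 * q + 1))⁻¹ := by
    refine le_trans (measureReal_mono (fun ω hω => ?_) (measure_ne_top _ _))
      ((hO3 w hμN).trans ?_)
    · have h5 : D (env X ω) 0 w < (1 - δ) * a := hω
      exact lt_of_lt_of_le h5 hlev
    · apply inv_anti₀ (by positivity)
      apply pow_le_pow_left₀ (by positivity)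
      have h5 : m / 2 = t / 6 := by rw [hm]; ring
      linarith
  obtain ⟨E, hEd⟩ : ∃ E : Set Ω, E = {ω | ∃ z ∈ Bx (M + 1), D (env X ω) 0 z < μ (em z) - K1 * s ∨
      D (env X ω) z w < μ (em (w - z)) - K1 * s} := ⟨_, rfl⟩
  rw [← hEd] at hEb'
  have hU : (volume : Measure Ω).real {ω | D (env X ω) 0 w < a} ≤
      (volume : Measure Ω).real ({ω | D (env X ω) 0 w < a} \ E) + (volume : Measure Ω).real E := by
    refine le_trans (measureReal_mono (fun ω hω => ?_) (measure_ne_top _ _))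
      (measureReal_union_le _ _)
    by_cases hωE : ω ∈ E
    · exact Or.inr hωE
    · exact Or.inl ⟨hω, hωE⟩
  refine fin_prob q t m _ _ _ _ ht0 hm a9 hw3 hEb' hU hB fun c hc => ?_
  refine swap2 hX δ hδ0.le hδ1 S hδF w ((1 - δ) * a) _ ?_ c hc
  rintro ω hω ⟨hωa, hωE⟩
  have hnE' : ∀ z ∈ Bx (M + 1), μ (em z) - K1 * s ≤ D (env X ω) 0 z ∧
      μ (em (w - z)) - K1 * s ≤ D (env X ω) z w := by
    intro z hz
    by_contra hcon
    apply hωE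
    rw [hEd]
    refine ⟨z, hz, ?_⟩
    rw [not_and_or, not_le, not_le] at hcon
    exact hcon
  refine det2 (env X ω) hω S δ hδ1 w a h0S hωa fun y hy hyz => ?_
  exact outs μ w R0 t H K1 s a hR0 hu he1 ht hHt M hM1 S hS (env X ω) hnE' haout y hy hyz

/-- thin lower tails at all points are impossible for exponents below `1 / 5` -/
theorem no_OH (hX : Iid X) {μ : Seminorm ℝ (ℝ × ℝ)} (hμ : ∀ x, μ x = 0 → x = 0)
    (hlim : ∀ v : ℤ × ℤ, ∀ᵐ ω ∂(volume : Measure Ω),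
      Tendsto (fun n : ℕ => D (env X ω) 0 ((n : ℤ) • v) / (n : ℝ)) atTop (𝓝 (μ (em v))))
    (χ : ℝ) (hχ0 : 1 / 10 ≤ χ) (hχ1 : χ < 1 / 5) (q Q : ℕ) (hq : 44 < q)
    (hQ1 : 36 + 9 * q + 1 ≤ Q) (hQ3 : 10 * (q + 3) ≤ Q) (hO : OH X μ χ Q) : False := by
  obtain ⟨C, hC⟩ := exists_Ct μ hμ
  obtain ⟨cm, Cn, hcm, hCn, hnorm⟩ := cNORM μ hμ
  obtain ⟨u, hu1, hu0, hu⟩ := extr μ hμ
  obtain ⟨R0, hR⟩ : ∃ R0, R0 = eu u := ⟨_, rfl⟩
  rw [← hR] at hu0 hu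
  obtain ⟨K1, hK1⟩ : ∃ K1, K1 = 1 + Cn * (R0 + 4) := ⟨_, rfl⟩
  obtain ⟨h, hh⟩ : ∃ h, h = (χ + 1 / 5) / 2 := ⟨_, rfl⟩
  have hφu : tg u u = 1 := tg_self u (by rw [← hR]; exact hu0)
  have hφ : ∀ x, |tg u x| ≤ μ x := by
    intro x
    have h1 := tg_le u x (by rw [← hR]; exact hu0)
    rw [← hR] at h1
    have h2 := hu x
    have h3 : |tg u x| * R0 ≤ μ x * R0 := by linarith
    exact le_of_mul_le_mul_right h3 hu0
  obtain ⟨N1, hN1⟩ := OH_mono (show q + 1 ≤ Q by omega) hO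
  obtain ⟨N2, hN2⟩ := OH_mono (show 10 * (q + 3) ≤ Q from hQ3) hO
  obtain ⟨N3, hN3⟩ := OH_mono (show 2 * q + 1 ≤ Q by omega) hO
  obtain ⟨N, hN⟩ : ∃ N, N = max N1 (max N2 N3) := ⟨_, rfl⟩
  have n1 : N1 ≤ N := by rw [hN]; exact le_max_left _ _
  have n2 : N2 ≤ N := by rw [hN]; exact (le_max_left _ _).trans (le_max_right _ _)
  have n3 : N3 ≤ N := by rw [hN]; exact (le_max_right _ _).trans (le_max_right _ _)
  have hf := fast_pt hX hC u hφu hu1 hφ q hq χ hχ0 (by linarith) (OH_mono hQ1 hO) hlim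
  have ht3 : Tendsto (fun t : ℝ => t / 3) atTop atTop :=
    tendsto_id.atTop_div_const (by norm_num)
  obtain ⟨t, t1, t2⟩ := ((ht3.eventually hf).and (ev_EV2 q C N R0 K1 χ h (by linarith)
    (by rw [hh]; linarith) (by rw [hh]; linarith))).exists
  obtain ⟨w, w1, w2, w3⟩ := t1
  refine scale2 hX Cn hCn (fun x => (hnorm x).2) C hC.pos u R0 hR hu0 hu hφ q (10 * (q + 3)) χ h N
    K1 t (by linarith) (by rw [hh]; linarith) (by rw [hh]; linarith) ?_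
    (fun v hv => hN1 v (n1.trans hv)) (fun v hv => hN2 v (n2.trans hv))
    (fun v hv => hN3 v (n3.trans hv)) hK1 t2 w w1 w2 w3
  push_cast
  have h1 : (0 : ℝ) ≤ (q : ℝ) := Nat.cast_nonneg q
  nlinarith

end

end Pool.Agent.V7H97.OF
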