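import Pool.Agent.V7H97.FO.Step

/-!
# Passage times at a large scale from passage times at a smaller scale: the lower bound above the
time constant is inherited
-/

set_option autoImplicit false

open MeasureTheory ProbabilityTheory Filter Set

namespace Pool.Agent.V7H97.OF

open Pool.Agent.N662.FP Pool.Agent.V7H97.FO

/-- a fast crossing of the strip above `g` between points of the box -/
def FF (φ : (ℝ × ℝ) →ₗ[ℝ] ℝ) (m C r : ℝ) (R : ℕ) (x : Sym2 (ℤ × ℤ) → ℝ) (g : ℤ × ℤ) : Prop :=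
  ∃ a ∈ Bx R, ∃ b ∈ Bx R, (m - 2 * C ≤ φ (em (b - a)) ∧ φ (em (b - a)) ≤ m) ∧
    Cr x (St φ m g) a b (φ (em (b - a)) + r)

theorem meas_FF {Ω : Type} (m' : MeasurableSpace Ω) (X : Sym2 (ℤ × ℤ) → Ω → ℝ)
    (φ : (ℝ × ℝ) →ₗ[ℝ] ℝ) (m C r : ℝ) (R : ℕ) (g : ℤ × ℤ)
    (hX : ∀ e ∈ Ed (St φ m g), Measurable[m'] (X e)) :
    MeasurableSet[m'] {ω | FF φ m C r R (env X ω) g} := by
  have e : {ω | FF φ m C r R (env X ω) g} = ⋃ a ∈ Bx R, ⋃ b ∈ Bx R,
      {ω | (m - 2 * C ≤ φ (em (b - a)) ∧ φ (em (b - a)) ≤ m) ∧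
        Cr (env X ω) (St φ m g) a b (φ (em (b - a)) + r)} := by
    ext ω
    simp only [mem_ofPred_eq, mem_iUnion, FF, exists_prop]
  rw [e]
  refine Finset.measurableSet_biUnion _ fun a _ => Finset.measurableSet_biUnion _ fun b _ => ?_
  by_cases hc : (m - 2 * C ≤ φ (em (b - a)) ∧ φ (em (b - a)) ≤ m)
  · have : {ω | (m - 2 * C ≤ φ (em (b - a)) ∧ φ (em (b - a)) ≤ m) ∧
        Cr (env X ω) (St φ m g) a b (φ (em (b - a)) + r)} =
        {ω | Cr (env X ω) (St φ m g) a b (φ (em (b - a)) + r)} := by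
      ext ω; exact ⟨fun h => h.2, fun h => ⟨hc, h⟩⟩
    rw [this]
    exact meas_Cr m' X _ hX a b _
  · have : {ω | (m - 2 * C ≤ φ (em (b - a)) ∧ φ (em (b - a)) ≤ m) ∧
        Cr (env X ω) (St φ m g) a b (φ (em (b - a)) + r)} = ∅ := by
      ext ω
      simp only [mem_ofPred_eq, mem_empty_iff_false, iff_false]
      exact fun h => hc h.1
    rw [this]
    exact MeasurableSet.empty

section
variable {Ω : Type} [MeasureSpace Ω] [IsProbabilityMeasure (volume : Measure Ω)]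
variable {X : Sym2 (ℤ × ℤ) → Ω → ℝ}

/-- a union over pairs of points of the box -/
theorem pairs (hX : Iid X) (φ : (ℝ × ℝ) →ₗ[ℝ] ℝ) (m C s p : ℝ) (hp0 : 0 ≤ p) (R : ℕ)
    (hp : ∀ w : ℤ × ℤ, m - 2 * C ≤ φ (em w) → φ (em w) ≤ m →
      (volume : Measure Ω).real {ω | D (env X ω) 0 w < φ (em w) + s} ≤ p) :
    (volume : Measure Ω).real {ω | ∃ a ∈ Bx R, ∃ b ∈ Bx R, (m - 2 * C ≤ φ (em (b - a)) ∧
      φ (em (b - a)) ≤ m) ∧ D (env X ω) a b < φ (em (b - a)) + s} ≤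
      (2 * (R : ℝ) + 1) ^ 4 * p := by
  classical
  obtain ⟨Q, hQ⟩ : ∃ Q : Finset ((ℤ × ℤ) × (ℤ × ℤ)), Q = (Bx R ×ˢ Bx R).filter
    (fun q => m - 2 * C ≤ φ (em (q.2 - q.1)) ∧ φ (em (q.2 - q.1)) ≤ m) := ⟨_, rfl⟩
  have hcard : (Q.card : ℝ) ≤ (2 * (R : ℝ) + 1) ^ 4 := by
    have h2 : Q.card ≤ (Bx R ×ˢ Bx R).card := by rw [hQ]; exact Finset.card_filter_le _ _
    rw [Finset.card_product] at h2
    calc (Q.card : ℝ) ≤ ((Bx R).card : ℝ) * ((Bx R).card : ℝ) := by exact_mod_cast h2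
      _ = (2 * (R : ℝ) + 1) ^ 4 := by rw [card_Bx]; ring
  have e : {ω | ∃ a ∈ Bx R, ∃ b ∈ Bx R, (m - 2 * C ≤ φ (em (b - a)) ∧
      φ (em (b - a)) ≤ m) ∧ D (env X ω) a b < φ (em (b - a)) + s} ⊆
      ⋃ q ∈ Q, {ω | D (env X ω) q.1 q.2 < φ (em (q.2 - q.1)) + s} := by
    rintro ω ⟨a, ha, b, hb, ⟨h2, h3⟩, h4⟩
    refine mem_iUnion₂.2 ⟨(a, b), ?_, h4⟩
    rw [hQ]
    exact Finset.mem_filter.2 ⟨Finset.mem_product.2 ⟨ha, hb⟩, h2, h3⟩
  refine (measureReal_mono e (measure_ne_top _ _)).trans ?_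
  refine (measureReal_biUnion_finset_le _ _).trans ?_
  refine (Finset.sum_le_card_nsmul _ _ p fun q hq => ?_).trans ?_
  · rw [hQ] at hq
    obtain ⟨-, h2, h3⟩ := Finset.mem_filter.1 hq
    rw [law_lt hX]
    exact hp _ h2 h3
  · rw [nsmul_eq_mul]
    exact mul_le_mul_of_nonneg_right hcard hp0

theorem D_of_Cr (x : Sym2 (ℤ × ℤ) → ℝ) (hx : ∀ e, 0 ≤ x e) (G : Set (ℤ × ℤ)) (a b : ℤ × ℤ) (s : ℝ)
    (h : Cr x G a b s) : D x a b < s := by
  obtain ⟨n, p, h0, h1, h2, -, h4⟩ := h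
  obtain ⟨-, hb, -, -⟩ := cGE x hx a b
  exact lt_of_le_of_lt (csInf_le hb ⟨n, p, h0, h1, h2, rfl⟩) h4

theorem FF_le (hX : Iid X) (φ : (ℝ × ℝ) →ₗ[ℝ] ℝ) (m C r p : ℝ) (hp0 : 0 ≤ p) (R : ℕ)
    (hp : ∀ w : ℤ × ℤ, m - 2 * C ≤ φ (em w) → φ (em w) ≤ m →
      (volume : Measure Ω).real {ω | D (env X ω) 0 w < φ (em w) + r} ≤ p) (g : ℤ × ℤ) :
    (volume : Measure Ω).real {ω | FF φ m C r R (env X ω) g} ≤ (2 * (R : ℝ) + 1) ^ 4 * p := by
  refine le_trans ?_ (pairs hX φ m C r p hp0 R hp)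
  rw [measureReal_def, measureReal_def]
  refine ENNReal.toReal_mono (measure_ne_top _ _) (measure_mono_ae ?_)
  filter_upwards [cAE Ω X hX] with ω hω h
  obtain ⟨a, ha, b, hb, h1, h2⟩ := h
  exact ⟨a, ha, b, hb, h1, D_of_Cr (env X ω) hω _ a b _ h2⟩

theorem many2 (hX : Iid X) (φ : (ℝ × ℝ) →ₗ[ℝ] ℝ) (m C r q : ℝ) (hq0 : 0 ≤ q) (R : ℕ)
    (g : ℕ → ℤ × ℤ) (L k : ℕ)
    (hd : ∀ i < L, ∀ j < L, i ≠ j → Disjoint (St φ m (g i)) (St φ m (g j)))
    (hF : ∀ j, (volume : Measure Ω).real {ω | FF φ m C r R (env X ω) (g j)} ≤ q)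
    (hq : L * q ≤ 1 / 2) :
    (volume : Measure Ω).real {ω | ∃ J ⊆ Finset.range L, J.card = k ∧
      ∀ j ∈ J, FF φ m C r R (env X ω) (g j)} ≤ (1 / 2) ^ k := by
  classical
  have hle : ∀ e, MeasurableSpace.comap (X e) inferInstance ≤ (inferInstance : MeasurableSpace Ω) :=
    fun e => (hX.meas e).comap_le
  have hi : iIndep (fun e => MeasurableSpace.comap (X e) inferInstance) (volume : Measure Ω) :=
    (iIndepFun_iff_iIndep _ _ _).1 hX.ind
  have hm : ∀ k, MeasurableSet[⨆ e ∈ Ed (St φ m (g k)), MeasurableSpace.comap (X e) inferInstance]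
      {ω | FF φ m C r R (env X ω) (g k)} := by
    intro k
    refine meas_FF _ X φ m C r R (g k) fun e he => ?_
    rw [measurable_iff_comap_le]
    exact le_biSup (fun e => MeasurableSpace.comap (X e) inferInstance) he
  have e : {ω | ∃ J ⊆ Finset.range L, J.card = k ∧ ∀ j ∈ J, FF φ m C r R (env X ω) (g j)} ⊆
      ⋃ J ∈ Finset.powersetCard k (Finset.range L),
        ⋂ j ∈ J, {ω | FF φ m C r R (env X ω) (g j)} := by
    rintro ω ⟨J, h1, h2, h3⟩
    refine mem_iUnion₂.2 ⟨J, Finset.mem_powersetCard.2 ⟨h1, h2⟩, ?_⟩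
    exact mem_iInter₂.2 h3
  refine (measureReal_mono e (measure_ne_top _ _)).trans ?_
  refine (measureReal_biUnion_finset_le _ _).trans ?_
  have h1 : ∀ J ∈ Finset.powersetCard k (Finset.range L), (volume : Measure Ω).real
      (⋂ j ∈ J, {ω | FF φ m C r R (env X ω) (g j)}) ≤ q ^ k := by
    intro J hJ
    obtain ⟨h2, h3⟩ := Finset.mem_powersetCard.1 hJ
    have h4 := prod_indep hle hi (fun k => Ed (St φ m (g k))) _ hm J
      (fun i hi j hj hij => Ed_disjoint (hd i (Finset.mem_range.1 (h2 hi)) j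
        (Finset.mem_range.1 (h2 hj)) hij))
    rw [measureReal_def, h4, ENNReal.toReal_prod, ← h3]
    rw [← Finset.prod_const]
    exact Finset.prod_le_prod (fun j _ => ENNReal.toReal_nonneg) fun j _ => hF j
  refine (Finset.sum_le_card_nsmul _ _ _ h1).trans ?_
  rw [Finset.card_powersetCard, Finset.card_range, nsmul_eq_mul]
  calc ((L.choose k : ℕ) : ℝ) * q ^ k ≤ (L : ℝ) ^ k * q ^ k := by
        gcongr
        exact_mod_cast Nat.choose_le_pow L k
    _ = (L * q) ^ k := by rw [mul_pow]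
    _ ≤ (1 / 2) ^ k := pow_le_pow_left₀ (by positivity) hq k

/-- from the scale `m` to the scale `n` -/
theorem one_scale (hX : Iid X) {μ : Seminorm ℝ (ℝ × ℝ)} {C : ℝ} (hC : Ct μ C)
    {φ : (ℝ × ℝ) →ₗ[ℝ] ℝ} (u : ℝ × ℝ) (hφu : φ u = 1) (hφ : ∀ x, |φ x| ≤ μ x)
    (m n : ℝ) (L R k : ℕ) (ℓ r r' : ℝ) (hm : 2 * C < m) (_hn : 0 < n)
    (hLn : L * (m + 2 * C + 1) ≤ n - 4 * C) (hR : 50 * n ≤ R) (hr' : r' ≤ n) (hr : 0 ≤ r)
    (hℓ : 0 ≤ ℓ) (hbal : n + r' ≤ L * (m - 2 * C + r) - k * (ℓ + r))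
    (p E2 : ℝ) (hp0 : 0 ≤ p) (hp : ∀ w : ℤ × ℤ, m - 2 * C ≤ φ (em w) → φ (em w) ≤ m →
      (volume : Measure Ω).real {ω | D (env X ω) 0 w < φ (em w) + r} ≤ p)
    (hLp : L * ((2 * (R : ℝ) + 1) ^ 4 * p) ≤ 1 / 2)
    (hE2 : (volume : Measure Ω).real {ω | ∃ a ∈ Bx R, ∃ b ∈ Bx R, (m - 2 * C ≤ φ (em (b - a)) ∧
      φ (em (b - a)) ≤ m) ∧ D (env X ω) a b < φ (em (b - a)) + -ℓ} ≤ E2)
    (v : ℤ × ℤ) (hv1 : n - 2 * C ≤ φ (em v)) (hv2 : φ (em v) ≤ n) :
    (volume : Measure Ω).real {ω | D (env X ω) 0 v < φ (em v) + r'} ≤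
      (1 / 2) ^ R + E2 + (1 / 2) ^ (k + 1) := by
  classical
  have hC0 := hC.pos
  obtain ⟨w', hw'⟩ : ∃ w', w' = m + 2 * C + 1 := ⟨_, rfl⟩
  have hw0 : 0 < w' := by rw [hw']; linarith
  choose g hg using fun i : ℕ => hC.round ((2 * C + (i : ℝ) * w') • u)
  have hgφ : ∀ i : ℕ, |φ (em (g i)) - (2 * C + (i : ℝ) * w')| ≤ C := by
    intro i
    have h1 : φ ((2 * C + (i : ℝ) * w') • u) = 2 * C + (i : ℝ) * w' := by
      rw [map_smul, hφu, smul_eq_mul, mul_one]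
    have h2 : φ (em (g i)) - (2 * C + (i : ℝ) * w') =
        φ (em (g i) - (2 * C + (i : ℝ) * w') • u) := by rw [map_sub, h1]
    rw [h2]
    exact (hφ _).trans (hg i)
  have hdis : ∀ i < L, ∀ j < L, i ≠ j → Disjoint (St φ m (g i)) (St φ m (g j)) := by
    have key : ∀ i j : ℕ, i < j → Disjoint (St φ m (g i)) (St φ m (g j)) := by
      intro i j hij
      rw [Set.disjoint_left]
      rintro z ⟨h1, h2⟩ ⟨h3, h4⟩
      rw [em_sub, map_sub] at h1 h2 h3 h4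
      have h5 := (abs_le.1 (hgφ i)).2
      have h6 := (abs_le.1 (hgφ j)).1
      have h8 : (i : ℝ) + 1 ≤ j := by exact_mod_cast hij
      have h9 : (i : ℝ) * w' + w' ≤ j * w' := by nlinarith
      linarith
    intro i _ j _ hij
    rcases lt_or_gt_of_ne hij with h | h
    · exact key i j h
    · exact (key j i h).symm
  have hg0 : ∀ j < L, 0 ≤ φ (em (g j)) := by
    intro j _
    have h1 := (abs_le.1 (hgφ j)).1
    have h2 : 0 ≤ (j : ℝ) * w' := by positivity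
    linarith
  have hgN : ∀ j < L, φ (em (g j)) + m ≤ φ (em v) := by
    intro j hj
    have h1 := (abs_le.1 (hgφ j)).2
    have h2 : (j : ℝ) + 1 ≤ L := by exact_mod_cast hj
    have h3 : ((j : ℝ) + 1) * w' ≤ L * w' := by nlinarith
    rw [← hw'] at hLn
    linarith
  have hgg : ∀ j, j + 1 < L → φ (em (g j)) + m ≤ φ (em (g (j + 1))) := by
    intro j _
    have h1 := (abs_le.1 (hgφ j)).2
    have h2 := (abs_le.1 (hgφ (j + 1))).1
    push_cast at h2
    linarith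
  have hstep : ∀ z z' : ℤ × ℤ, |z'.1 - z.1| + |z'.2 - z.2| = 1 → |φ (em z') - φ (em z)| ≤ C := by
    intro z z' h
    rw [← map_sub]
    exact (hφ _).trans (hC.step z z' h)
  -- the inclusion of events
  have hincl : ∀ᵐ ω ∂(volume : Measure Ω), (ω ∈ {ω | D (env X ω) 0 v < φ (em v) + r'}) →
      ω ∈ ({ω | Fast (env X ω) R} ∪
        {ω | ∃ a ∈ Bx R, ∃ b ∈ Bx R, (m - 2 * C ≤ φ (em (b - a)) ∧
          φ (em (b - a)) ≤ m) ∧ D (env X ω) a b < φ (em (b - a)) + -ℓ}) ∪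
        {ω | ∃ J ⊆ Finset.range L, J.card = k + 1 ∧
          ∀ j ∈ J, FF φ m C r R (env X ω) (g j)} := by
    filter_upwards [cAE Ω X hX] with ω hω h
    have h' : D (env X ω) 0 v < φ (em v) + r' := h
    by_contra hcon
    simp only [mem_union, not_or] at hcon
    obtain ⟨⟨c1, c3⟩, c4⟩ := hcon
    have c1' : ¬ Fast (env X ω) R := c1
    have c3' : ∀ a ∈ Bx R, ∀ b ∈ Bx R, m - 2 * C ≤ φ (em (b - a)) → φ (em (b - a)) ≤ m →
        φ (em (b - a)) - ℓ ≤ D (env X ω) a b := by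
      intro a ha b hb h1 h2
      by_contra h3
      exact c3 ⟨a, ha, b, hb, ⟨h1, h2⟩, by rw [not_le] at h3; linarith⟩
    obtain ⟨hne, hbd, -, -⟩ := cGE (env X ω) hω 0 v
    obtain ⟨s, hs1, hs2⟩ := exists_lt_of_csInf_lt hne h'
    obtain ⟨N, p', p0, pN, padj, pinj, psum⟩ := cSAW (env X ω) hω 0 v s hs1
    have hNR : N < R := by
      by_contra h1
      rw [not_lt] at h1
      refine c1' ⟨p', p0, fun i hi => padj i (by omega), fun i hi j hj => pinj i (by omega) j (by omega), ?_⟩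
      have h2 : ∑ i ∈ Finset.range R, env X ω s(p' i, p' (i + 1)) ≤
          ∑ i ∈ Finset.range N, env X ω s(p' i, p' (i + 1)) :=
        Finset.sum_le_sum_of_subset_of_nonneg (Finset.range_mono h1) fun i _ _ => hω _
      linarith
    have hbox := path_box p' N R p0 hNR.le padj
    -- crossings
    obtain ⟨a, b, t, ht1, ht2⟩ := crossings (env X ω) hω φ C m hC0 hm hstep p' N v p0 pN padj g L
      hg0 hgN hgg
    obtain ⟨Bd, hBd⟩ : ∃ Bd : Finset ℕ, Bd = (Finset.range L).filter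
      (fun j => FF φ m C r R (env X ω) (g j)) := ⟨_, rfl⟩
    have hcard : Bd.card ≤ k := by
      by_contra h1
      obtain ⟨J, hJ1, hJ2⟩ := Finset.exists_subset_card_eq (show k + 1 ≤ Bd.card by omega)
      refine c4 ⟨J, hJ1.trans (by rw [hBd]; exact Finset.filter_subset _ _), hJ2, ?_⟩
      intro j hj
      have := hJ1 hj
      rw [hBd] at this
      exact (Finset.mem_filter.1 this).2
    have hlow : ∀ j ∈ Finset.range L, (m - 2 * C + r) - (if j ∈ Bd then ℓ + r else 0) ≤ t j := by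
      intro j hj
      rw [Finset.mem_range] at hj
      obtain ⟨k1, k2, k3, k4, k5, k6, k7⟩ := ht2 j hj
      have k8 : m - 2 * C ≤ φ (em (p' (b j) - p' (a j))) := by
        rw [em_sub, map_sub] at k3 k4 ⊢
        linarith
      split_ifs with hjB
      · have h1 := c3' (p' (a j)) (hbox _ (by omega)) (p' (b j)) (hbox _ k2) k8 k5
        linarith
      · have hnb : ¬ FF φ m C r R (env X ω) (g j) := by
          intro hb
          exact hjB (by rw [hBd]; exact Finset.mem_filter.2 ⟨Finset.mem_range.2 hj, hb⟩)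
        have h1 : ¬ Cr (env X ω) (St φ m (g j)) (p' (a j)) (p' (b j))
            (φ (em (p' (b j) - p' (a j))) + r) := by
          intro hcr
          exact hnb ⟨p' (a j), hbox _ (by omega), p' (b j), hbox _ k2, ⟨k8, k5⟩, hcr⟩
        have h2 := k7 _ h1
        linarith
    have hsum := Finset.sum_le_sum hlow
    rw [Finset.sum_sub_distrib, Finset.sum_const, Finset.card_range, nsmul_eq_mul] at hsum
    have hsum2 : ∑ j ∈ Finset.range L, (if j ∈ Bd then ℓ + r else 0) ≤ k * (ℓ + r) := by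
      rw [← Finset.sum_filter, Finset.sum_const, nsmul_eq_mul]
      have h1 : ((Finset.range L).filter (fun j => j ∈ Bd)).card ≤ k := by
        refine (Finset.card_le_card ?_).trans hcard
        intro j hj
        exact (Finset.mem_filter.1 hj).2
      have h2 : (((Finset.range L).filter (fun j => j ∈ Bd)).card : ℝ) ≤ k := by exact_mod_cast h1
      exact mul_le_mul_of_nonneg_right h2 (by linarith)
    linarith
  have h1 : (volume : Measure Ω).real {ω | D (env X ω) 0 v < φ (em v) + r'} ≤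
      (volume : Measure Ω).real (({ω | Fast (env X ω) R} ∪
        {ω | ∃ a ∈ Bx R, ∃ b ∈ Bx R, (m - 2 * C ≤ φ (em (b - a)) ∧
          φ (em (b - a)) ≤ m) ∧ D (env X ω) a b < φ (em (b - a)) + -ℓ}) ∪
        {ω | ∃ J ⊆ Finset.range L, J.card = k + 1 ∧
          ∀ j ∈ J, FF φ m C r R (env X ω) (g j)}) := by
    rw [measureReal_def, measureReal_def]
    exact ENNReal.toReal_mono (measure_ne_top _ _) (measure_mono_ae hincl)
  have h2 : (volume : Measure Ω).real {ω | Fast (env X ω) R} ≤ (1 / 2) ^ R := by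
    have h3 := cCNT Ω X hX R
    rw [measureReal_def]
    refine (ENNReal.toReal_mono (by simp) h3).trans ?_
    rw [ENNReal.toReal_pow]
    simp
  have h3 := many2 hX φ m C r ((2 * (R : ℝ) + 1) ^ 4 * p) (by positivity) R g L (k + 1) hdis
    (fun j => FF_le hX φ m C r p hp0 R hp (g j)) hLp
  refine h1.trans ((measureReal_union_le _ _).trans ?_)
  exact add_le_add ((measureReal_union_le _ _).trans (add_le_add h2 hE2)) h3

end

end Pool.Agent.V7H97.OF
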