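import Pool.Agent.V7H97.LF.Core

/-!
# Scaling finitely many exponential weights: events of small probability
-/

set_option autoImplicit false

open MeasureTheory ProbabilityTheory Filter Set
open scoped ENNReal

namespace Pool.Agent.V7H97.OF

open Pool.Agent.N662.FP Pool.Agent.V7H97.FO Pool.Agent.V7H97.LF

theorem pw2 (a : ℝ≥0∞) (ha : a ≠ ⊤) (c : ℝ) (hc : 0 < c) :
    a ≤ ENNReal.ofReal (c / 2) + ENNReal.ofReal (1 / (2 * c)) * (a * a) := by
  obtain ⟨b, hb0, rfl⟩ : ∃ b : ℝ, 0 ≤ b ∧ a = ENNReal.ofReal b :=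
    ⟨a.toReal, ENNReal.toReal_nonneg, (ENNReal.ofReal_toReal ha).symm⟩
  rw [← ENNReal.ofReal_mul hb0, ← ENNReal.ofReal_mul (by positivity),
    ← ENNReal.ofReal_add (by positivity) (by positivity)]
  apply ENNReal.ofReal_le_ofReal
  have h1 : c / 2 + 1 / (2 * c) * (b * b) - b = (b - c) ^ 2 / (2 * c) := by
    field_simp
    ring
  have h2 : 0 ≤ (b - c) ^ 2 / (2 * c) := by positivity
  linarith

section
variable {Ω ι : Type} [MeasureSpace Ω] [IsProbabilityMeasure (volume : Measure Ω)]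
variable {X : ι → Ω → ℝ}

/-- scaling few weights by little does not change small probabilities much -/
theorem cmp2 (hm : ∀ e, Measurable (X e)) (hi : iIndepFun X (volume : Measure Ω))
    (hl : ∀ e, Measure.map (X e) (volume : Measure Ω) = expMeasure 1) (δ : ℝ) (h0 : 0 ≤ δ)
    (h1 : δ < 1) (F : Finset ι) (hF : δ ^ 2 * (F.card : ℝ) ≤ 1 / 17) (G : Set (ι → ℝ))
    (hG : MeasurableSet G) (c : ℝ) (hc : 0 < c) :
    (volume : Measure Ω).real {ω | sc F (1 - δ) (fun i => X i ω) ∈ G} ≤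
      c / 2 * (volume : Measure Ω).real {ω | (fun i => X i ω) ∈ G} + 1 / (2 * c) * (17 / 16) := by
  classical
  have hl0 : 0 < 1 - δ := by linarith
  have hl2 : 1 - δ < 2 := by linarith
  have hXm : Measurable (fun ω i => X i ω) := measurable_pi_iff.2 hm
  obtain ⟨L, hL⟩ : ∃ L : Ω → ℝ≥0∞, L = fun ω => ∏ e ∈ F, ell (1 - δ) (X e ω) := ⟨_, rfl⟩
  have hLm : Measurable L := by
    rw [hL]
    exact Finset.measurable_fun_prod _ fun e _ => (ell_meas _).comp (hm e)
  have hLt : ∀ ω, L ω ≠ ⊤ := by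
    intro ω
    rw [hL]
    exact ENNReal.prod_ne_top fun e _ => ENNReal.ofReal_ne_top
  have hA : MeasurableSet {ω | (fun i => X i ω) ∈ G} := hXm hG
  have hB : MeasurableSet {ω | sc F (1 - δ) (fun i => X i ω) ∈ G} :=
    ((sc_meas F (1 - δ)).comp hXm) hG
  have t1 : (volume : Measure Ω) {ω | sc F (1 - δ) (fun i => X i ω) ∈ G} =
      ∫⁻ ω, ({ω | (fun i => X i ω) ∈ G}.indicator 1 ω : ℝ≥0∞) * L ω := by
    have h2 := tilt hm hi hl (1 - δ) hl0 F (G.indicator 1) (measurable_one.indicator hG)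
    have h3 : ∫⁻ ω, (G.indicator 1 (sc F (1 - δ) (fun i => X i ω)) : ℝ≥0∞) =
        (volume : Measure Ω) {ω | sc F (1 - δ) (fun i => X i ω) ∈ G} := by
      rw [← lintegral_indicator_one hB]
      rfl
    rw [← h3, h2, hL]
    rfl
  have t3 : ∫⁻ ω, L ω * L ω ≤ ENNReal.ofReal (17 / 16) := by
    have h2 := ell_sq hm hi hl (1 - δ) hl0 hl2 F
    have h3 : ∫⁻ ω, L ω * L ω = (ENNReal.ofReal ((1 - δ) * (2 - (1 - δ)))⁻¹) ^ F.card := by
      rw [hL]; exact h2
    have hp : 0 < (1 - δ) * (2 - (1 - δ)) := mul_pos hl0 (by linarith)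
    rw [h3, ← ENNReal.ofReal_pow (by positivity)]
    apply ENNReal.ofReal_le_ofReal
    have h4 : (1 - δ) * (2 - (1 - δ)) = 1 + -(δ ^ 2) := by ring
    have h5 : 1 + (F.card : ℝ) * (-(δ ^ 2)) ≤ (1 + -(δ ^ 2)) ^ F.card :=
      one_add_mul_le_pow (by nlinarith) _
    have h6 : 16 / 17 ≤ (1 + -(δ ^ 2)) ^ F.card := by linarith
    rw [h4, inv_pow]
    rw [inv_le_comm₀ (by linarith) (by norm_num)]
    refine le_trans (by norm_num) h6
  have main : (volume : Measure Ω) {ω | sc F (1 - δ) (fun i => X i ω) ∈ G} ≤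
      ENNReal.ofReal (c / 2) * (volume : Measure Ω) {ω | (fun i => X i ω) ∈ G} +
        ENNReal.ofReal (1 / (2 * c)) * ENNReal.ofReal (17 / 16) := by
    have h2 : ∫⁻ ω, ({ω | (fun i => X i ω) ∈ G}.indicator 1 ω : ℝ≥0∞) * L ω ≤
        ∫⁻ ω, (ENNReal.ofReal (c / 2) * ({ω | (fun i => X i ω) ∈ G}.indicator 1 ω : ℝ≥0∞) +
          ENNReal.ofReal (1 / (2 * c)) * (L ω * L ω)) := by
      refine lintegral_mono fun ω => ?_
      by_cases hω : ω ∈ {ω | (fun i => X i ω) ∈ G}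
      · simp only [Set.indicator_of_mem hω, Pi.one_apply, one_mul, mul_one]
        exact pw2 (L ω) (hLt ω) c hc
      · simp only [Set.indicator_of_notMem hω, zero_mul, mul_zero, zero_add]
        exact bot_le
    have i1 : Measurable (fun ω => ({ω | (fun i => X i ω) ∈ G}.indicator 1 ω : ℝ≥0∞)) :=
      measurable_one.indicator hA
    have i3 : Measurable (fun ω => L ω * L ω) := hLm.mul hLm
    rw [lintegral_add_left (i1.const_mul _), lintegral_const_mul _ i1,
      lintegral_indicator_one hA, lintegral_const_mul _ i3, ← t1] at h2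
    refine h2.trans ?_
    gcongr
  have p1 := measureReal_nonneg (μ := (volume : Measure Ω)) (s := {ω | (fun i => X i ω) ∈ G})
  have e1 : (volume : Measure Ω) {ω | (fun i => X i ω) ∈ G} =
      ENNReal.ofReal ((volume : Measure Ω).real {ω | (fun i => X i ω) ∈ G}) := by
    rw [measureReal_def, ENNReal.ofReal_toReal (measure_ne_top _ _)]
  rw [e1, ← ENNReal.ofReal_mul (by positivity), ← ENNReal.ofReal_mul (by positivity),
    ← ENNReal.ofReal_add (by positivity) (by positivity)] at main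
  rw [measureReal_def]
  exact ENNReal.toReal_le_of_le_ofReal (by positivity) main

end

section
variable {Ω : Type} [MeasureSpace Ω] [IsProbabilityMeasure (volume : Measure Ω)]
variable {X : Sym2 (ℤ × ℤ) → Ω → ℝ}

/-- the comparison of the two laws for the event of a small passage time -/
theorem swap2 (hX : Iid X) (δ : ℝ) (h0 : 0 ≤ δ) (h1 : δ < 1) (S : Finset (ℤ × ℤ))
    (hF : δ ^ 2 * ((nb S).card : ℝ) ≤ 1 / 17) (v : ℤ × ℤ) (a : ℝ) (E : Set Ω)
    (hincl : ∀ ω, (∀ e, 0 ≤ env X ω e) → ω ∈ E → D (sc (nb S) (1 - δ) (env X ω)) 0 v < a)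
    (c : ℝ) (hc : 0 < c) :
    (volume : Measure Ω).real E ≤
      c / 2 * (volume : Measure Ω).real {ω | D (env X ω) 0 v < a} + 1 / (2 * c) * (17 / 16) := by
  have c1 := cmp2 hX.meas hX.ind hX.law δ h0 h1 (nb S) hF _ (mG v a) c hc
  have hae := cAE Ω X hX
  have e1 : (volume : Measure Ω).real
      {ω | (fun i => X i ω) ∈ {x : Sym2 (ℤ × ℤ) → ℝ | D (fun e => max (x e) 0) 0 v < a}} ≤
      (volume : Measure Ω).real {ω | D (env X ω) 0 v < a} := by
    rw [measureReal_def, measureReal_def]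
    refine ENNReal.toReal_mono (measure_ne_top _ _) (measure_mono_ae ?_)
    filter_upwards [hae] with ω hω h
    have h4 : D (fun e => max (X e ω) 0) 0 v < a := h
    have : (fun e => max (X e ω) 0) = env X ω := max_self (env X ω) hω
    rw [this] at h4
    exact h4
  have e2 : (volume : Measure Ω).real E ≤ (volume : Measure Ω).real
      {ω | sc (nb S) (1 - δ) (fun i => X i ω) ∈
      {x : Sym2 (ℤ × ℤ) → ℝ | D (fun e => max (x e) 0) 0 v < a}} := by
    rw [measureReal_def, measureReal_def]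
    refine ENNReal.toReal_mono (measure_ne_top _ _) (measure_mono_ae ?_)
    filter_upwards [hae] with ω hω h
    have h3 := hincl ω hω h
    have hy : ∀ e, 0 ≤ sc (nb S) (1 - δ) (env X ω) e := by
      intro e
      by_cases he : e ∈ nb S
      · rw [sc_in _ _ _ he]
        exact mul_nonneg (by linarith) (hω e)
      · rw [sc_out _ _ _ he]
        exact hω e
    have h5 : (fun e => max (sc (nb S) (1 - δ) (fun i => X i ω) e) 0) =
        sc (nb S) (1 - δ) (env X ω) := max_self _ hy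
    show D (fun e => max (sc (nb S) (1 - δ) (fun i => X i ω) e) 0) 0 v < a
    rw [h5]
    exact h3
  refine e2.trans (c1.trans ?_)
  have : c / 2 * (volume : Measure Ω).real
      {ω | (fun i => X i ω) ∈ {x : Sym2 (ℤ × ℤ) → ℝ | D (fun e => max (x e) 0) 0 v < a}} ≤
      c / 2 * (volume : Measure Ω).real {ω | D (env X ω) 0 v < a} :=
    mul_le_mul_of_nonneg_left e1 (by positivity)
  linarith

end

/-- a fast path stays in `S` -/
theorem det2 (x : Sym2 (ℤ × ℤ) → ℝ) (hx : ∀ e, 0 ≤ x e) (S : Finset (ℤ × ℤ)) (δ : ℝ) (hδ : δ < 1)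
    (v : ℤ × ℤ) (a : ℝ) (h0 : 0 ∈ S) (hin : D x 0 v < a)
    (hout : ∀ w, w ∉ S → (∃ z ∈ S, |w.1 - z.1| + |w.2 - z.2| = 1) → a ≤ D x 0 w + D x w v) :
    D (sc (nb S) (1 - δ) x) 0 v < (1 - δ) * a := by
  classical
  have hy : ∀ e, 0 ≤ sc (nb S) (1 - δ) x e := by
    intro e
    by_cases he : e ∈ nb S
    · rw [sc_in _ _ _ he]
      exact mul_nonneg (by linarith) (hx e)
    · rw [sc_out _ _ _ he]
      exact hx e
  obtain ⟨hne, -, -, -⟩ := cGE x hx 0 v
  obtain ⟨s, ⟨n, p, p0, pn, padj, rfl⟩, hs⟩ := exists_lt_of_csInf_lt hne hin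
  by_cases hall : ∀ i < n, p i ∈ S
  · have h1 : ∑ i ∈ Finset.range n, sc (nb S) (1 - δ) x s(p i, p (i + 1)) =
        (1 - δ) * ∑ i ∈ Finset.range n, x s(p i, p (i + 1)) := by
      rw [Finset.mul_sum]
      refine Finset.sum_congr rfl fun i hi => ?_
      rw [Finset.mem_range] at hi
      rw [sc_in _ _ _ (nb_mem S _ _ (hall i hi) (padj i hi))]
    obtain ⟨-, hbd, -, -⟩ := cGE _ hy 0 v
    refine lt_of_le_of_lt (csInf_le hbd ⟨n, p, p0, pn, padj, rfl⟩) ?_
    rw [h1]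
    exact mul_lt_mul_of_pos_left hs (by linarith)
  · exfalso
    push Not at hall
    obtain ⟨i, ⟨hi, hiS⟩, hmin⟩ : ∃ i, (i < n ∧ p i ∉ S) ∧ ∀ j < i, ¬ (j < n ∧ p j ∉ S) := by
      refine ⟨Nat.find hall, Nat.find_spec hall, fun j hj => Nat.find_min hall hj⟩
    have hi0 : i ≠ 0 := by
      rintro rfl
      rw [p0] at hiS
      exact hiS h0
    obtain ⟨j, rfl⟩ : ∃ j, i = j + 1 := ⟨i - 1, by omega⟩
    have hjS : p j ∈ S := by
      by_contra h
      exact hmin j (by omega) ⟨by omega, h⟩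
    have h2 := hout (p (j + 1)) hiS ⟨p j, hjS, padj j (by omega)⟩
    obtain ⟨m, rfl⟩ : ∃ m, n = (j + 1) + m := ⟨n - (j + 1), by omega⟩
    rw [Finset.sum_range_add] at hs
    obtain ⟨-, hbd1, -, -⟩ := cGE x hx 0 (p (j + 1))
    obtain ⟨-, hbd2, -, -⟩ := cGE x hx (p (j + 1)) v
    have h3 : D x 0 (p (j + 1)) ≤ ∑ i ∈ Finset.range (j + 1), x s(p i, p (i + 1)) :=
      csInf_le hbd1 ⟨j + 1, p, p0, rfl, fun i hi => padj i (by omega), rfl⟩
    have h4 : D x (p (j + 1)) v ≤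
        ∑ i ∈ Finset.range m, x s(p (j + 1 + i), p (j + 1 + i + 1)) := by
      refine csInf_le hbd2 ⟨m, fun i => p (j + 1 + i), rfl, pn, fun i hi => ?_, rfl⟩
      exact padj (j + 1 + i) (by omega)
    linarith

end Pool.Agent.V7H97.OF
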